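import Mathlib
import Pool.Agent.J6H18.RC.TwoN
import Pool.Agent.Y989.SD.Fin
import Pool.Agent.H160R2.SA.Arm

/-!
Critical bond percolation on `ε ℤ²` (`p = 1/2`) in a Jordan domain with `C^(1,α)` boundary or in a
rectangle with sides parallel to the axes: the probability that two connected sets of vertices of the
domain (in the bulk or on the boundary, small or large, close to each other or not) are joined by an
open path inside the domain is given, up to constants which depend only on the domain, by an explicit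
function of the preimages of the two sets under the conformal map from the disc. Hence these
probabilities are conformally invariant up to constants.
-/

set_option autoImplicit false

namespace Pool.Agent.Results.MP_35f495_pr.ContinuaConformalInvariance

open MeasureTheory

/-- The square lattice: two points of `ℤ²` are adjacent when they differ by one in exactly one
coordinate. -/
def Z2 : SimpleGraph (ℤ × ℤ) where
  Adj u v := |u.1 - v.1| + |u.2 - v.2| = 1
  symm := ⟨fun u v h => by rw [abs_sub_comm v.1, abs_sub_comm v.2]; exact h⟩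
  loopless := ⟨fun u h => by simp at h⟩

/-- Critical bond percolation: every edge of the square lattice is open (`true`) with
probability `1/2`, independently of the other edges. -/
noncomputable def crit : Measure (Z2.edgeSet → Bool) :=
  Measure.infinitePi (fun _ => ProbabilityTheory.bernoulliMeasure true false
    ⟨1/2, by norm_num, by norm_num⟩)

/-- The position of the vertex `v` of the lattice `ε ℤ²` in the plane. -/
noncomputable def pos (ε : ℝ) (v : ℤ × ℤ) : ℂ := ⟨ε * v.1, ε * v.2⟩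

/-- The graph of the open edges of `ε ℤ²` with both endpoints in `D`. -/
def openGraph (ε : ℝ) (D : Set ℂ) (ω : Z2.edgeSet → Bool) : SimpleGraph (ℤ × ℤ) :=
  SimpleGraph.fromEdgeSet {e | (∃ h : e ∈ Z2.edgeSet, ω ⟨e, h⟩ = true) ∧ ∀ v ∈ e, pos ε v ∈ D}

/-- The probability that an open path of `ε ℤ²` inside `D` joins a vertex of `A` to a vertex of
`B`. -/
noncomputable def cross (ε : ℝ) (D : Set ℂ) (A B : Finset (ℤ × ℤ)) : ℝ :=
  crit.real {ω | ∃ u ∈ A, ∃ v ∈ B, (openGraph ε D ω).Reachable u v}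

/-- The closed unit disc. -/
def disc : Set ℂ := Metric.closedBall 0 1

/-- The open unit disc. -/
def ball : Set ℂ := Metric.ball 0 1

/-- `f` parametrizes a Jordan domain with `C^(1,α)` boundary, `0 < α ≤ 1`: it is injective and
continuous on the closed unit disc, conformal in the open unit disc, and its derivative extends to a
Hölder continuous function `g` without zeros on the closed unit disc. (By the theorem of Kellogg and
Warschawski the Riemann maps onto Jordan domains with `C^(1,α)` boundary, `0 < α < 1`, have this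
property.) -/
def Smooth (f : ℂ → ℂ) : Prop :=
  Set.InjOn f disc ∧ ContinuousOn f disc ∧ ∃ (g : ℂ → ℂ) (M α : ℝ), 0 < α ∧ α ≤ 1 ∧
    (∀ z, ‖z‖ < 1 → HasDerivAt f (g z) z) ∧ (∀ z ∈ disc, g z ≠ 0) ∧
    ∀ z ∈ disc, ∀ w ∈ disc, ‖g z - g w‖ ≤ M * ‖z - w‖ ^ α

/-- The open rectangle with corners `(x₁, y₁)` and `(x₂, y₂)`. -/
def rect (x₁ x₂ y₁ y₂ : ℝ) : Set ℂ := {z | (x₁ < z.re ∧ z.re < x₂) ∧ (y₁ < z.im ∧ z.im < y₂)}

/-- `f` parametrizes a closed rectangle with sides parallel to the axes: it is injective and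
continuous on the closed unit disc, and holomorphic on the open unit disc, which it maps onto an open
rectangle. (Such a map exists for every rectangle, by the theorems of Riemann and Carathéodory.) -/
def Rectangular (f : ℂ → ℂ) : Prop :=
  Set.InjOn f disc ∧ ContinuousOn f disc ∧ DifferentiableOn ℂ f ball ∧
    ∃ x₁ x₂ y₁ y₂ : ℝ, x₁ < x₂ ∧ y₁ < y₂ ∧ f '' ball = rect x₁ x₂ y₁ y₂

/-- The domains: Jordan domains with `C^(1,α)` boundary, and rectangles. -/
def Nice (f : ℂ → ℂ) : Prop := Smooth f ∨ Rectangular f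

/-- `A` is a connected set of vertices of `ε ℤ²` in the closed domain `f '' disc`. -/
def Conn (f : ℂ → ℂ) (ε : ℝ) (A : Finset (ℤ × ℤ)) : Prop :=
  (∀ v ∈ A, pos ε v ∈ f '' disc) ∧ (Z2.induce (↑A : Set (ℤ × ℤ))).Connected

/-- The set `A` of vertices of `ε ℤ²` approximates `f '' K`, where `K` is a subset of the closed
disc: the Hausdorff distance between `A` and `f '' K` is at most `M ε`, and `f '' K` has two points
at distance at least `ε`. -/
def Approx (f : ℂ → ℂ) (M ε : ℝ) (K : Set ℂ) (A : Finset (ℤ × ℤ)) : Prop :=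
  K ⊆ disc ∧ (∀ z ∈ K, ∃ v ∈ A, ‖f z - pos ε v‖ ≤ M * ε) ∧
    (∀ v ∈ A, ∃ z ∈ K, ‖f z - pos ε v‖ ≤ M * ε) ∧ ∃ z ∈ K, ∃ w ∈ K, ε ≤ ‖f z - f w‖

/-- The distance between two sets. -/
noncomputable def gap (K L : Set ℂ) : ℝ := sInf ((fun p : ℂ × ℂ => ‖p.1 - p.2‖) '' (K ×ˢ L))

/-- The unit circle. -/
def circle : Set ℂ := Metric.sphere 0 1

/-- The factor of `K` in the connection probability: with `t` the diameter of `K`, `s` its distance
to the unit circle and `d` its distance to `L`, it is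
`(t / (t + d)) ^ (5/48) * ((t + s) / (t + s + d)) ^ (11/48)`. -/
noncomputable def R (K L : Set ℂ) : ℝ :=
  (Metric.diam K / (Metric.diam K + gap K L)) ^ (5 / 48 : ℝ) *
    ((Metric.diam K + gap K circle) / (Metric.diam K + gap K circle + gap K L)) ^ (11 / 48 : ℝ)

/-- The connection function of the disc. -/
noncomputable def Ψ (K L : Set ℂ) : ℝ := R K L * R L K

theorem openGraph_adj {f : ℂ → ℂ} {ε : ℝ} {T : Finset (ℤ × ℤ)}
    (h : ∀ v, v ∈ T ↔ Y989.SD.pos ε v ∈ f '' Y989.SD.disc) (ω : Z2.edgeSet → Bool) (u v : ℤ × ℤ) :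
    (openGraph ε (f '' disc) ω).Adj u v ↔
      H974.Adj (H974.opn ω ∩ TH976.dE (↑T : Set (ℤ × ℤ))) u v := by
  have hs : ∀ w, pos ε w ∈ f '' disc ↔ w ∈ (↑T : Set (ℤ × ℤ)) := fun w => (h w).symm
  unfold openGraph
  rw [SimpleGraph.fromEdgeSet_adj]
  constructor
  · rintro ⟨⟨⟨h, hω⟩, hV⟩, hne⟩
    have hadj : (H974.openGraph ω).Adj u v := by
      unfold H974.openGraph
      rw [SimpleGraph.fromEdgeSet_adj]
      exact ⟨⟨h, hω⟩, hne⟩
    obtain ⟨e, he, hcase⟩ := (H974.openGraph_adj ω u v).mp hadj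
    have hu := (hs u).mp (hV u (Sym2.mem_mk_left u v))
    have hv := (hs v).mp (hV v (Sym2.mem_mk_right u v))
    refine ⟨e, ⟨he, ?_⟩, hcase⟩
    rcases hcase with ⟨h1, h2⟩ | ⟨h1, h2⟩
    · exact ⟨by rw [h1]; exact hu, by rw [h2]; exact hv⟩
    · exact ⟨by rw [h1]; exact hv, by rw [h2]; exact hu⟩
  · rintro ⟨e, ⟨he, hV⟩, hcase⟩
    have hadj : (H974.openGraph ω).Adj u v := (H974.openGraph_adj ω u v).mpr ⟨e, he, hcase⟩
    unfold H974.openGraph at hadj
    rw [SimpleGraph.fromEdgeSet_adj] at hadj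
    refine ⟨⟨hadj.1, ?_⟩, hadj.2⟩
    intro w hw
    rw [hs]
    rcases Sym2.mem_iff.mp hw with rfl | rfl
    · rcases hcase with ⟨h1, h2⟩ | ⟨h1, h2⟩
      · rw [← h1]; exact hV.1
      · rw [← h2]; exact hV.2
    · rcases hcase with ⟨h1, h2⟩ | ⟨h1, h2⟩
      · rw [← h2]; exact hV.2
      · rw [← h1]; exact hV.1

theorem cross_eq {f : ℂ → ℂ} {ε : ℝ} {T : Finset (ℤ × ℤ)}
    (h : ∀ v, v ∈ T ↔ Y989.SD.pos ε v ∈ f '' Y989.SD.disc) (A B : Finset (ℤ × ℤ)) :
    cross ε (f '' disc) A B = H974.Pr H160R2.CV.P (H973.ES T) (J6H18.GD.Jn A B) := by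
  have key : ∀ (ω : Z2.edgeSet → Bool) (u v : ℤ × ℤ), (openGraph ε (f '' disc) ω).Reachable u v ↔
      H974.Reach (H974.FF (H973.ES T) ω : Set H974.Edg) u v := by
    intro ω u v
    rw [SimpleGraph.reachable_iff_reflTransGen]
    have e1 : H974.opn ω ∩ TH976.dE (↑T : Set (ℤ × ℤ)) =
        (H974.FF (H973.ES T) ω : Set H974.Edg) := by
      ext e
      rw [Finset.mem_coe, H974.mem_FF, H973.mem_ES]
      constructor
      · rintro ⟨h1, h2, h3⟩
        exact ⟨⟨h2, h3⟩, h1⟩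
      · rintro ⟨⟨h2, h3⟩, h1⟩
        exact ⟨h1, h2, h3⟩
    have e2 : (openGraph ε (f '' disc) ω).Adj =
        H974.Adj (H974.FF (H973.ES T) ω : Set H974.Edg) := by
      funext u v
      rw [← e1]
      exact propext (openGraph_adj h ω u v)
    rw [e2]
    rfl
  have e2 : {ω : Z2.edgeSet → Bool | ∃ u ∈ A, ∃ v ∈ B, (openGraph ε (f '' disc) ω).Reachable u v} =
      {ω | J6H18.GD.Jn A B (H974.FF (H973.ES T) ω)} := by
    ext ω
    constructor
    · rintro ⟨u, hu, v, hv, hr⟩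
      exact ⟨u, hu, v, hv, (key ω u v).mp hr⟩
    · rintro ⟨u, hu, v, hv, hr⟩
      exact ⟨u, hu, v, hv, (key ω u v).mpr hr⟩
  have h6 := H974.law_event H974.hlf (H973.ES T) (J6H18.GD.Jn A B)
  exact (congrArg (fun s => (H974.bondLaw H974.hlf).real s) e2).trans h6

theorem ct_of {A : Finset (ℤ × ℤ)} (h : (Z2.induce (↑A : Set (ℤ × ℤ))).Connected) :
    J6H18.GD.Ct A := by
  intro u hu v hv
  have h1 := h.preconnected ⟨u, hu⟩ ⟨v, hv⟩
  rw [SimpleGraph.reachable_iff_reflTransGen] at h1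
  have key : ∀ (a b : (↑A : Set (ℤ × ℤ))),
      Relation.ReflTransGen (Z2.induce (↑A : Set (ℤ × ℤ))).Adj a b →
      H974.Reach (H973.EV fun y => y ∈ A) a.1 b.1 := by
    intro a b hab
    induction hab with
    | refl => exact H974.Reach.refl _ _
    | @tail x y _ hs ih =>
      refine Relation.ReflTransGen.tail ih ?_
      have hadj : Z2.Adj x.1 y.1 := hs
      have h2 : (H974.openGraph (fun _ : Z2.edgeSet => true)).Adj x.1 y.1 := by
        unfold H974.openGraph
        rw [SimpleGraph.fromEdgeSet_adj]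
        exact ⟨⟨hadj, rfl⟩, hadj.ne⟩
      obtain ⟨e, -, hc⟩ := (H974.openGraph_adj _ x.1 y.1).mp h2
      refine ⟨e, ?_, hc⟩
      rcases hc with ⟨h3, h4⟩ | ⟨h3, h4⟩
      · exact ⟨by rw [h3]; exact x.2, by rw [h4]; exact y.2⟩
      · exact ⟨by rw [h3]; exact y.2, by rw [h4]; exact x.2⟩
  exact key ⟨u, hu⟩ ⟨v, hv⟩ h1

theorem ap_of {f : ℂ → ℂ} {M ε : ℝ} {K : Set ℂ} {A : Finset (ℤ × ℤ)} (h : Approx f M ε K A) :
    J6H18.GD.Ap f ε M A K := ⟨h.1, h.2.1, h.2.2.1, h.2.2.2⟩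

theorem cmp_iff {C a b : ℝ} (h : TH976.Cmp C a b) : C⁻¹ * b ≤ a ∧ a ≤ C * b := by
  have h0 := h.k0
  refine ⟨?_, h.l⟩
  rw [inv_mul_le_iff₀ h0]
  exact h.r

theorem smW {f : ℂ → ℂ} (hf : Smooth f) : ∃ (g : ℂ → ℂ) (M α : ℝ), Y989.SD.SmW f g M α ∧
    DifferentiableOn ℂ f (Metric.ball 0 1) := by
  obtain ⟨hi, hc, g, M, α, ha0, ha1, hd, hn, hg⟩ := hf
  refine ⟨g, M, α, Y989.SD.smW_of ha0 ha1 hi hc hd hn hg, ?_⟩
  intro z hz
  exact (hd z (mem_ball_zero_iff.mp hz)).differentiableAt.differentiableWithinAt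

theorem rM {f : ℂ → ℂ} (hf : Rectangular f) : ∃ x₁ x₂ y₁ y₂ : ℝ, J6H18.RC.RM f x₁ x₂ y₁ y₂ := by
  obtain ⟨h1, h2, h3, x₁, x₂, y₁, y₂, h4, h5, h6⟩ := hf
  exact ⟨x₁, x₂, y₁, y₂, h4, h5, h1, h2, h3, h6⟩

theorem one_dom {f : ℂ → ℂ} (hf : Nice f) {M : ℝ} (hM : 1 ≤ M) :
    ∃ C ε₀ : ℝ, 1 ≤ C ∧ 0 < ε₀ ∧ ∀ (ε : ℝ) (A B : Finset (ℤ × ℤ)) (K L : Set ℂ), 0 < ε → ε ≤ ε₀ →
      Conn f ε A → Conn f ε B → Approx f M ε K A → Approx f M ε L B →
      TH976.Cmp C (cross ε (f '' disc) A B) (Ψ K L) := by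
  rcases hf with hf | hf
  · obtain ⟨g, Mf, α, hW, hd⟩ := smW hf
    obtain ⟨C, ε0, hC, hε0, h⟩ := J6H18.RC.two_S Pool.Agent.H160R2.SA.arSharp hW hd hM
    refine ⟨C, ε0, hC, hε0, fun ε A B K L hε hε1 hA hB hK hL => ?_⟩
    obtain ⟨h1, h2⟩ := h ε hε hε1
    rw [cross_eq h1]
    exact h2 A B K L (ap_of hK) (ap_of hL) (fun u hu => (h1 u).mpr (hA.1 u hu))
      (fun u hu => (h1 u).mpr (hB.1 u hu)) (ct_of hA.2) (ct_of hB.2)
  · obtain ⟨x₁, x₂, y₁, y₂, hR⟩ := rM hf
    obtain ⟨C, ε0, hC, hε0, h⟩ := J6H18.RC.two_R Pool.Agent.H160R2.SA.arSharp hR hM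
    refine ⟨C, ε0, hC, hε0, fun ε A B K L hε hε1 hA hB hK hL => ?_⟩
    have h1 : ∀ v, v ∈ J6H18.RC.TR x₁ x₂ y₁ y₂ ε ↔ Y989.SD.pos ε v ∈ f '' Y989.SD.disc := by
      intro v
      rw [J6H18.RC.mem_TR hε]
      show _ ↔ _ ∈ f '' Metric.closedBall 0 1
      rw [hR.img_disc]
    rw [cross_eq h1]
    exact h ε hε hε1 A B K L (ap_of hK) (ap_of hL) (fun u hu => (h1 u).mpr (hA.1 u hu))
      (fun u hu => (h1 u).mpr (hB.1 u hu)) (ct_of hA.2) (ct_of hB.2)

/-- **Conformal invariance up to constants of the connection probabilities of continua, for critical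
bond percolation on `ε ℤ²` in `C^(1,α)` Jordan domains and in rectangles.**
(1) For every such domain `f '' disc` and every `M` there are `C`, `ε₀` such that for all `ε ≤ ε₀`,
all subsets `K`, `L` of the closed disc whose images under `f` have diameter at least `ε`, and all
connected sets `A`, `B` of vertices of the domain which approximate these images at scale `ε`, the
probability that `A` and `B` are joined by an open path inside the domain is `Ψ K L` up to a
factor `C`.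
(2) For two such domains `f '' disc`, `f' '' disc` and every `M` there are `C`, `ε₀` such that, for
the conformal map `φ` of the first domain onto the second with `φ ∘ f = f'`, all `K`, `L` and all
meshes `ε, ε' ≤ ε₀`, the probability that connected sets of vertices which approximate `f '' K` and
`f '' L` are joined inside the first domain, and the probability that connected sets which approximate
`φ '' (f '' K)` and `φ '' (f '' L)` are joined inside the second, agree up to a factor `C`. -/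
theorem result :
    (∀ f : ℂ → ℂ, Nice f → ∀ M : ℝ, 1 ≤ M → ∃ C ε₀ : ℝ, 1 ≤ C ∧ 0 < ε₀ ∧
      ∀ (ε : ℝ) (A B : Finset (ℤ × ℤ)) (K L : Set ℂ), 0 < ε → ε ≤ ε₀ →
        Conn f ε A → Conn f ε B → Approx f M ε K A → Approx f M ε L B →
        C⁻¹ * Ψ K L ≤ cross ε (f '' disc) A B ∧ cross ε (f '' disc) A B ≤ C * Ψ K L) ∧
    (∀ f f' : ℂ → ℂ, Nice f → Nice f' → ∀ M : ℝ, 1 ≤ M → ∃ C ε₀ : ℝ, 1 ≤ C ∧ 0 < ε₀ ∧
      ∀ φ : ℂ → ℂ, (∀ z ∈ disc, φ (f z) = f' z) →
      ∀ (ε ε' : ℝ) (A B A' B' : Finset (ℤ × ℤ)) (K L : Set ℂ), 0 < ε → ε ≤ ε₀ → 0 < ε' → ε' ≤ ε₀ →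
        Conn f ε A → Conn f ε B → Approx f M ε K A → Approx f M ε L B →
        Conn f' ε' A' → Conn f' ε' B' →
        Approx (φ ∘ f) M ε' K A' → Approx (φ ∘ f) M ε' L B' →
        C⁻¹ * cross ε' (f' '' disc) A' B' ≤ cross ε (f '' disc) A B ∧
        cross ε (f '' disc) A B ≤ C * cross ε' (f' '' disc) A' B') := by
  refine ⟨?_, ?_⟩
  · intro f hf M hM
    obtain ⟨C, ε0, hC, hε0, h⟩ := one_dom hf hM
    exact ⟨C, ε0, hC, hε0, fun ε A B K L hε hε1 hA hB hK hL =>
      cmp_iff (h ε A B K L hε hε1 hA hB hK hL)⟩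
  · intro f f' hf hf' M hM
    obtain ⟨C, ε0, hC, hε0, h⟩ := one_dom hf hM
    obtain ⟨C', ε0', hC', hε0', h'⟩ := one_dom hf' hM
    refine ⟨C * C', min ε0 ε0', TH976.Cmp.one_le_mul' hC hC', lt_min hε0 hε0', ?_⟩
    intro φ hφ ε ε' A B A' B' K L hε hε1 hε' hε1' hA hB hK hL hA' hB' hK' hL'
    have conv : ∀ (K : Set ℂ) (A : Finset (ℤ × ℤ)), Approx (φ ∘ f) M ε' K A →
        Approx f' M ε' K A := by
      rintro K A ⟨a1, a2, a3, z, hz, w, hw, a4⟩
      refine ⟨a1, fun z hz => ?_, fun v hv => ?_, z, hz, w, hw, ?_⟩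
      · rw [← hφ z (a1 hz)]
        exact a2 z hz
      · obtain ⟨z, hz, h1⟩ := a3 v hv
        refine ⟨z, hz, ?_⟩
        rw [← hφ z (a1 hz)]
        exact h1
      · rw [← hφ z (a1 hz), ← hφ w (a1 hw)]
        exact a4
    have t1 := h ε A B K L hε (hε1.trans (min_le_left _ _)) hA hB hK hL
    have t2 := h' ε' A' B' K L hε' (hε1'.trans (min_le_right _ _)) hA' hB' (conv K A' hK')
      (conv L B' hL')
    exact cmp_iff (t1.trans t2.symm)

end Pool.Agent.Results.MP_35f495_pr.ContinuaConformalInvariance
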