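import Mathlib
import Pool.Agent.J6H18.GD.SmK
import Pool.Agent.J6H18.RC.RectRetr
import Pool.Agent.Y989.SD.Fin
import Pool.Agent.H160R2.SA.Arm

/-!
Critical bond percolation on `ε ℤ²` (`p = 1/2`) in a Jordan domain with `C^(1,α)` boundary or in a
rectangle with sides parallel to the axes: the probability that `k` given vertices are connected
inside the domain, for every `k` and all positions of the vertices (in the bulk, on the boundary, at
the corners, close to each other), is given up to a factor `C ^ k` by an explicit function of the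
points, which is exactly covariant with weight `5/48` at every point under all conformal maps between
domains. Hence the connection probabilities of two such domains are conformally covariant up to
constants, down to the scale of the mesh.
-/

set_option autoImplicit false

namespace Pool.Agent.Results.MP_35f495_pr.DomainConnectionFunctions

open MeasureTheory Finset

/-- The square lattice: two points of `ℤ²` are adjacent when they differ by one in exactly one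
coordinate. -/
def Z2 : SimpleGraph (ℤ × ℤ) where
  Adj u v := |u.1 - v.1| + |u.2 - v.2| = 1
  symm := ⟨fun u v h => by rw [abs_sub_comm v.1, abs_sub_comm v.2]; exact h⟩
  loopless := ⟨fun u h => by simp at h⟩

/-- Critical bond percolation: every edge of the square lattice is open (`true`) with
probability `1/2`, independently of the other edges. -/
noncomputable def crit : Measure (Z2.edgeSet → Bool) :=
  Measure.infinitePi (fun _ => ProbabilityTheory.bernoulliMeasure true false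
    ⟨1/2, by norm_num, by norm_num⟩)

/-- The position of the vertex `v` of the lattice `ε ℤ²` in the plane. -/
noncomputable def pos (ε : ℝ) (v : ℤ × ℤ) : ℂ := ⟨ε * v.1, ε * v.2⟩

/-- The graph of the open edges of `ε ℤ²` with both endpoints in `D`. -/
def openGraph (ε : ℝ) (D : Set ℂ) (ω : Z2.edgeSet → Bool) : SimpleGraph (ℤ × ℤ) :=
  SimpleGraph.fromEdgeSet {e | (∃ h : e ∈ Z2.edgeSet, ω ⟨e, h⟩ = true) ∧ ∀ v ∈ e, pos ε v ∈ D}

/-- The probability that the vertices of `X` are connected to each other by open paths of `ε ℤ²`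
inside `D`. -/
noncomputable def conn (ε : ℝ) (D : Set ℂ) (X : Finset (ℤ × ℤ)) : ℝ :=
  crit.real {ω | ∀ u ∈ X, ∀ v ∈ X, (openGraph ε D ω).Reachable u v}

/-- The closed unit disc. -/
def disc : Set ℂ := Metric.closedBall 0 1

/-- The open unit disc. -/
def ball : Set ℂ := Metric.ball 0 1

/-- `f` parametrizes a Jordan domain with `C^(1,α)` boundary, `0 < α ≤ 1`: it is injective and
continuous on the closed unit disc, conformal in the open unit disc, and its derivative extends to a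
Hölder continuous function `g` without zeros on the closed unit disc. (By the theorem of Kellogg and
Warschawski the Riemann maps onto Jordan domains with `C^(1,α)` boundary, `0 < α < 1`, have this
property.) -/
def Smooth (f : ℂ → ℂ) : Prop :=
  Set.InjOn f disc ∧ ContinuousOn f disc ∧ ∃ (g : ℂ → ℂ) (M α : ℝ), 0 < α ∧ α ≤ 1 ∧
    (∀ z, ‖z‖ < 1 → HasDerivAt f (g z) z) ∧ (∀ z ∈ disc, g z ≠ 0) ∧
    ∀ z ∈ disc, ∀ w ∈ disc, ‖g z - g w‖ ≤ M * ‖z - w‖ ^ α

/-- The open rectangle with corners `(x₁, y₁)` and `(x₂, y₂)`. -/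
def rect (x₁ x₂ y₁ y₂ : ℝ) : Set ℂ := {z | (x₁ < z.re ∧ z.re < x₂) ∧ (y₁ < z.im ∧ z.im < y₂)}

/-- `f` parametrizes a closed rectangle with sides parallel to the axes: it is injective and
continuous on the closed unit disc, and holomorphic on the open unit disc, which it maps onto an open
rectangle. (Such a map exists for every rectangle, by the theorems of Riemann and Carathéodory.) -/
def Rectangular (f : ℂ → ℂ) : Prop :=
  Set.InjOn f disc ∧ ContinuousOn f disc ∧ DifferentiableOn ℂ f ball ∧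
    ∃ x₁ x₂ y₁ y₂ : ℝ, x₁ < x₂ ∧ y₁ < y₂ ∧ f '' ball = rect x₁ x₂ y₁ y₂

/-- The domains: Jordan domains with `C^(1,α)` boundary, and rectangles. -/
def Nice (f : ℂ → ℂ) : Prop := Smooth f ∨ Rectangular f

/-- `φ` is a conformal map from `D` onto `D'`: it is holomorphic on `D` and it has a holomorphic
inverse `ψ` from `D'` to `D`. -/
def Conformal (D D' : Set ℂ) (φ : ℂ → ℂ) : Prop :=
  DifferentiableOn ℂ φ D ∧ Set.MapsTo φ D D' ∧ ∃ ψ : ℂ → ℂ, DifferentiableOn ℂ ψ D' ∧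
    Set.MapsTo ψ D' D ∧ (∀ z ∈ D, ψ (φ z) = z) ∧ ∀ w ∈ D', φ (ψ w) = w

/-- The upper half-plane. -/
def half : Set ℂ := {z | 0 < z.im}

/-- The two-point function of the half-plane. -/
noncomputable def GH (z w : ℂ) : ℝ :=
  ‖z - w‖ ^ (-(5 / 24) : ℝ) * (1 + ‖z - w‖ ^ 2 / (z.im * w.im)) ^ (-(11 / 48) : ℝ)

/-- The two-point function of a domain, in terms of a conformal map `u` onto the half-plane. -/
noncomputable def G (u : ℂ → ℂ) (z w : ℂ) : ℝ :=
  ‖deriv u z‖ ^ (5 / 48 : ℝ) * ‖deriv u w‖ ^ (5 / 48 : ℝ) * GH (u z) (u w)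

/-- The `k`-point function of a domain: the product, over the points `z j` after the first two, of
the maximum over the pairs `z i, z l` of previous points of
`(G (z j) (z i) * G (z j) (z l) / G (z i) (z l)) ^ (1/2)`. -/
noncomputable def F (u : ℂ → ℂ) (z : ℕ → ℂ) (k : ℕ) : ℝ :=
  G u (z 0) (z 1) * ∏ j ∈ Ico 2 k, ⨆ p : {p : Fin j × Fin j // p.1 < p.2},
    Real.sqrt (G u (z j) (z p.1.1) * G u (z j) (z p.1.2) / G u (z p.1.1) (z p.1.2))

/-- The points `z i` of the domain `f '' ball` represent the vertices `x i`, `i < k`, at scale `ε`: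
the vertices are distinct and belong to the closed domain, `z i` is at distance at most `A ε` from
`x i`, and the points `z i` are at distance at least `ε / A` from the boundary and from each
other. -/
def Repr (f : ℂ → ℂ) (A ε : ℝ) (k : ℕ) (x : ℕ → ℤ × ℤ) (z : ℕ → ℂ) : Prop :=
  (∀ i < k, pos ε (x i) ∈ f '' disc) ∧ (∀ i < k, ∀ j < k, i ≠ j → x i ≠ x j) ∧
  (∀ i < k, z i ∈ f '' ball) ∧ (∀ i < k, ‖z i - pos ε (x i)‖ ≤ A * ε) ∧
  (∀ i < k, ∀ w : ℂ, ‖w‖ = 1 → ε ≤ A * ‖z i - f w‖) ∧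
  (∀ i < k, ∀ j < k, i ≠ j → ε ≤ A * ‖z i - z j‖)

theorem openGraph_adj {f : ℂ → ℂ} {ε : ℝ} {T : Finset (ℤ × ℤ)}
    (h : ∀ v, v ∈ T ↔ Y989.SD.pos ε v ∈ f '' Y989.SD.disc) (ω : Z2.edgeSet → Bool) (u v : ℤ × ℤ) :
    (openGraph ε (f '' disc) ω).Adj u v ↔
      H974.Adj (H974.opn ω ∩ TH976.dE (↑T : Set (ℤ × ℤ))) u v := by
  have hs : ∀ w, pos ε w ∈ f '' disc ↔ w ∈ (↑T : Set (ℤ × ℤ)) := fun w => (h w).symm
  unfold openGraph
  rw [SimpleGraph.fromEdgeSet_adj]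
  constructor
  · rintro ⟨⟨⟨h, hω⟩, hV⟩, hne⟩
    have hadj : (H974.openGraph ω).Adj u v := by
      unfold H974.openGraph
      rw [SimpleGraph.fromEdgeSet_adj]
      exact ⟨⟨h, hω⟩, hne⟩
    obtain ⟨e, he, hcase⟩ := (H974.openGraph_adj ω u v).mp hadj
    have hu := (hs u).mp (hV u (Sym2.mem_mk_left u v))
    have hv := (hs v).mp (hV v (Sym2.mem_mk_right u v))
    refine ⟨e, ⟨he, ?_⟩, hcase⟩
    rcases hcase with ⟨h1, h2⟩ | ⟨h1, h2⟩
    · exact ⟨by rw [h1]; exact hu, by rw [h2]; exact hv⟩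
    · exact ⟨by rw [h1]; exact hv, by rw [h2]; exact hu⟩
  · rintro ⟨e, ⟨he, hV⟩, hcase⟩
    have hadj : (H974.openGraph ω).Adj u v := (H974.openGraph_adj ω u v).mpr ⟨e, he, hcase⟩
    unfold H974.openGraph at hadj
    rw [SimpleGraph.fromEdgeSet_adj] at hadj
    refine ⟨⟨hadj.1, ?_⟩, hadj.2⟩
    intro w hw
    rw [hs]
    rcases Sym2.mem_iff.mp hw with rfl | rfl
    · rcases hcase with ⟨h1, h2⟩ | ⟨h1, h2⟩
      · rw [← h1]; exact hV.1
      · rw [← h2]; exact hV.2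
    · rcases hcase with ⟨h1, h2⟩ | ⟨h1, h2⟩
      · rw [← h2]; exact hV.2
      · rw [← h1]; exact hV.1

theorem conn_eq {f : ℂ → ℂ} {ε : ℝ} {T : Finset (ℤ × ℤ)}
    (h : ∀ v, v ∈ T ↔ Y989.SD.pos ε v ∈ f '' Y989.SD.disc) (X : Finset (ℤ × ℤ)) :
    conn ε (f '' disc) X = TH976.PD (↑T : Set (ℤ × ℤ)) (H362P.Cn X) := by
  have h0 : conn ε (f '' disc) X = (H974.bondLaw H974.hlf).real
      {ω | ∀ u ∈ X, ∀ v ∈ X, (openGraph ε (f '' disc) ω).Reachable u v} := rfl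
  have key : ∀ (ω : Z2.edgeSet → Bool) (u v : ℤ × ℤ), (openGraph ε (f '' disc) ω).Reachable u v ↔
      H974.Reach (H974.opn ω ∩ TH976.dE (↑T : Set (ℤ × ℤ))) u v := by
    intro ω u v
    rw [SimpleGraph.reachable_iff_reflTransGen]
    have : (openGraph ε (f '' disc) ω).Adj =
        H974.Adj (H974.opn ω ∩ TH976.dE (↑T : Set (ℤ × ℤ))) := by
      funext u v
      exact propext (openGraph_adj h ω u v)
    rw [this]
    rfl
  rw [h0]
  unfold TH976.PD H362P.Cn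
  congr 1
  ext ω
  constructor
  · intro h u hu v hv
    exact (key ω u v).mp (h u hu v hv)
  · intro h u hu v hv
    exact (key ω u v).mpr (h u hu v hv)

theorem cmp_iff {C a b : ℝ} (h : TH976.Cmp C a b) : C⁻¹ * b ≤ a ∧ a ≤ C * b := by
  have h0 := h.k0
  refine ⟨?_, h.l⟩
  rw [inv_mul_le_iff₀ h0]
  exact h.r

theorem smW {f : ℂ → ℂ} (hf : Smooth f) : ∃ (g : ℂ → ℂ) (M α : ℝ), Y989.SD.SmW f g M α ∧
    DifferentiableOn ℂ f (Metric.ball 0 1) := by
  obtain ⟨hi, hc, g, M, α, ha0, ha1, hd, hn, hg⟩ := hf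
  refine ⟨g, M, α, Y989.SD.smW_of ha0 ha1 hi hc hd hn hg, ?_⟩
  intro z hz
  exact (hd z (mem_ball_zero_iff.mp hz)).differentiableAt.differentiableWithinAt

theorem rM {f : ℂ → ℂ} (hf : Rectangular f) : ∃ x₁ x₂ y₁ y₂ : ℝ, J6H18.RC.RM f x₁ x₂ y₁ y₂ := by
  obtain ⟨h1, h2, h3, x₁, x₂, y₁, y₂, h4, h5, h6⟩ := hf
  exact ⟨x₁, x₂, y₁, y₂, h4, h5, h1, h2, h3, h6⟩

theorem pow_eq {ε : ℝ} (hε : 0 < ε) (k : ℕ) : (ε ^ (5 / 48 : ℝ)) ^ k = ε ^ (5 * k / 48 : ℝ) := by
  rw [← Real.rpow_natCast, ← Real.rpow_mul hε.le]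
  congr 1
  ring

theorem one_dom {f : ℂ → ℂ} (hf : Nice f) {A : ℝ} (hA : 1 ≤ A) :
    ∃ C ε₀ : ℝ, 1 ≤ C ∧ 0 < ε₀ ∧ ∀ u : ℂ → ℂ, Conformal (f '' ball) half u →
      ∀ (ε : ℝ) (k : ℕ) (x : ℕ → ℤ × ℤ) (z : ℕ → ℂ), 0 < ε → ε ≤ ε₀ → 2 ≤ k →
        Repr f A ε k x z →
        TH976.Cmp (C ^ k) (conn ε (f '' disc) ((range k).image x))
          (ε ^ (5 * k / 48 : ℝ) * F u z k) := by
  rcases hf with hf | hf
  · obtain ⟨g, M, α, hW, hd⟩ := smW hf
    obtain ⟨C, ε0, hC, hε0, h⟩ := J6H18.GD.kpt_S Pool.Agent.H160R2.SA.arSharp hW hd hA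
    refine ⟨C, ε0, hC, hε0, fun u hu ε k x z hε hε1 hk hR => ?_⟩
    obtain ⟨h1, h2⟩ := h ε hε hε1
    obtain ⟨r1, r2, r3, r4, r5, r6⟩ := hR
    have h3 := h2 u hu k x z hk r1 r2 r3 r4 r5 r6
    rw [conn_eq h1]
    rw [pow_eq hε] at h3
    exact h3
  · obtain ⟨x₁, x₂, y₁, y₂, hR⟩ := rM hf
    obtain ⟨C, ε0, hC, hε0, h⟩ := J6H18.RC.kpt_R Pool.Agent.H160R2.SA.arSharp hR hA
    refine ⟨C, ε0, hC, hε0, fun u hu ε k x z hε hε1 hk hRe => ?_⟩
    obtain ⟨r1, r2, r3, r4, r5, r6⟩ := hRe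
    have h3 := h ε hε hε1 u hu k x z hk r1 r2 r3 r4 r5 r6
    have h1 : ∀ v, v ∈ J6H18.RC.TR x₁ x₂ y₁ y₂ ε ↔ Y989.SD.pos ε v ∈ f '' Y989.SD.disc := by
      intro v
      rw [J6H18.RC.mem_TR hε]
      show _ ↔ _ ∈ f '' Metric.closedBall 0 1
      rw [hR.img_disc]
    rw [conn_eq h1]
    rw [pow_eq hε] at h3
    exact h3

theorem dm {f : ℂ → ℂ} (hf : Nice f) : ∃ (b : ℂ → ℝ) (C : ℝ), J6H18.GD.DM f b C := by
  rcases hf with hf | hf
  · obtain ⟨g, M, α, hW, hd⟩ := smW hf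
    obtain ⟨b0, C, -, h, -⟩ := J6H18.GD.dm_S hW hd
    exact ⟨_, C, h⟩
  · obtain ⟨x₁, x₂, y₁, y₂, hR⟩ := rM hf
    obtain ⟨C, h⟩ := hR.dm
    exact ⟨_, C, h⟩

theorem retr {f : ℂ → ℂ} (hf : Nice f) : ∃ A ε₀ : ℝ, 1 ≤ A ∧ 0 < ε₀ ∧ ∀ ε : ℝ, 0 < ε → ε ≤ ε₀ →
    ∃ r : ℤ × ℤ → ℂ, ∀ v, pos ε v ∈ f '' disc →
      (r v ∈ f '' ball ∧ ‖r v - pos ε v‖ ≤ A * ε ∧ ∀ w : ℂ, ‖w‖ = 1 → ε ≤ A * ‖r v - f w‖) ∧
      ∀ w, pos ε w ∈ f '' disc → v ≠ w → ε ≤ A * ‖r v - r w‖ := by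
  rcases hf with hf | hf
  · obtain ⟨g, M, α, hW, hd⟩ := smW hf
    obtain ⟨b0, C, hb, h, hN⟩ := J6H18.GD.dm_S hW hd
    obtain ⟨A, hA, h⟩ := J6H18.GD.retr h hb hN
    exact ⟨A, 1 / 2, hA, by norm_num, h⟩
  · obtain ⟨x₁, x₂, y₁, y₂, hR⟩ := rM hf
    exact J6H18.RC.retr_R hR

/-- **Conformal covariance up to constants of the connection probabilities of critical bond
percolation on `ε ℤ²` in `C^(1,α)` Jordan domains and in rectangles.**
(1) For every such domain `D = f '' disc` and every `A` there are `C`, `ε₀` such that for all `ε ≤ ε₀`, all `k ≥ 2` and all distinct vertices `x i` of `ε ℤ²` in `D`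
represented by points `z i`, the probability that the `x i` are connected inside `D` is
`ε ^ (5 k / 48) F (z)` up to a factor `C ^ k`; here `F` is computed from any conformal map `u` from
`D` onto the half-plane.
(2) There is `A` such that for all small `ε` all vertices in `D` are represented by points in `D`.
(3) `F` is exactly covariant under all conformal maps between open sets which are conformally
equivalent to the half-plane, with weight `5/48` at every point.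
(4) For two such domains `f '' disc`, `f' '' disc` and every `A` there are `C`, `ε₀` such that for
all conformal maps `φ` between them, all `ε ≤ ε₀`, all `k ≥ 2`, all points `z i` and vertices `x i`,
`y i` represented by `z i` and `φ (z i)`, the probability that the `x i` are connected in the first
domain is the product of the `|φ' (z i)| ^ (5/48)` and of the probability that the `y i` are
connected in the second domain, up to a factor `C ^ k`. -/
theorem result :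
    (∀ f : ℂ → ℂ, Nice f → ∀ A : ℝ, 1 ≤ A → ∃ C ε₀ : ℝ, 1 ≤ C ∧ 0 < ε₀ ∧
      ∀ u : ℂ → ℂ, Conformal (f '' ball) half u →
      ∀ (ε : ℝ) (k : ℕ) (x : ℕ → ℤ × ℤ) (z : ℕ → ℂ), 0 < ε → ε ≤ ε₀ → 2 ≤ k →
        Repr f A ε k x z →
        (C ^ k)⁻¹ * (ε ^ (5 * k / 48 : ℝ) * F u z k) ≤
          conn ε (f '' disc) ((range k).image x) ∧
        conn ε (f '' disc) ((range k).image x) ≤ C ^ k * (ε ^ (5 * k / 48 : ℝ) * F u z k)) ∧
    (∀ f : ℂ → ℂ, Nice f → ∃ A ε₀ : ℝ, 1 ≤ A ∧ 0 < ε₀ ∧ ∀ ε : ℝ, 0 < ε → ε ≤ ε₀ →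
      ∃ r : ℤ × ℤ → ℂ, ∀ (k : ℕ) (x : ℕ → ℤ × ℤ), (∀ i < k, pos ε (x i) ∈ f '' disc) →
        (∀ i < k, ∀ j < k, i ≠ j → x i ≠ x j) → Repr f A ε k x (fun i => r (x i))) ∧
    (∀ (D D' : Set ℂ) (u u' φ : ℂ → ℂ), IsOpen D → IsOpen D' → Conformal D half u →
      Conformal D' half u' → Conformal D D' φ → ∀ (k : ℕ) (z : ℕ → ℂ), 2 ≤ k →
      (∀ i < k, z i ∈ D) →
      F u z k = (∏ i ∈ range k, ‖deriv φ (z i)‖ ^ (5 / 48 : ℝ)) * F u' (fun i => φ (z i)) k) ∧
    (∀ f f' : ℂ → ℂ, Nice f → Nice f' → ∀ A : ℝ, 1 ≤ A → ∃ C ε₀ : ℝ, 1 ≤ C ∧ 0 < ε₀ ∧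
      ∀ φ : ℂ → ℂ, Conformal (f '' ball) (f' '' ball) φ →
      ∀ (ε : ℝ) (k : ℕ) (x y : ℕ → ℤ × ℤ) (z : ℕ → ℂ), 0 < ε → ε ≤ ε₀ → 2 ≤ k →
        Repr f A ε k x z → Repr f' A ε k y (fun i => φ (z i)) →
        (C ^ k)⁻¹ * ((∏ i ∈ range k, ‖deriv φ (z i)‖ ^ (5 / 48 : ℝ)) *
          conn ε (f' '' disc) ((range k).image y)) ≤
          conn ε (f '' disc) ((range k).image x) ∧
        conn ε (f '' disc) ((range k).image x) ≤
          C ^ k * ((∏ i ∈ range k, ‖deriv φ (z i)‖ ^ (5 / 48 : ℝ)) *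
            conn ε (f' '' disc) ((range k).image y))) := by
  refine ⟨?_, ?_, ?_, ?_⟩
  · intro f hf A hA
    obtain ⟨C, ε0, hC, hε0, h⟩ := one_dom hf hA
    exact ⟨C, ε0, hC, hε0, fun u hu ε k x z hε hε1 hk hR => cmp_iff (h u hu ε k x z hε hε1 hk hR)⟩
  · intro f hf
    obtain ⟨A, ε0, hA, hε0, h⟩ := retr hf
    refine ⟨A, ε0, hA, hε0, fun ε hε hε1 => ?_⟩
    obtain ⟨r, hr⟩ := h ε hε hε1
    refine ⟨r, fun k x hx hd => ⟨hx, hd, fun i hi => (hr _ (hx i hi)).1.1,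
      fun i hi => (hr _ (hx i hi)).1.2.1, fun i hi => (hr _ (hx i hi)).1.2.2,
      fun i hi j hj hij => (hr _ (hx i hi)).2 _ (hx j hj) (hd i hi j hj hij)⟩⟩
  · intro D D' u u' φ hD hD' hu hu' hφ k z hk hz
    exact J6H18.GD.kFun_conf hD hD' hu hu' hφ hk hz
  · intro f f' hf hf' A hA
    obtain ⟨C, ε0, hC, hε0, h⟩ := one_dom hf hA
    obtain ⟨C', ε0', hC', hε0', h'⟩ := one_dom hf' hA
    obtain ⟨b0, C0, hdm⟩ := dm hf
    obtain ⟨b0', C0', hdm'⟩ := dm hf'
    obtain ⟨u, hu⟩ := J6H18.GD.exists_u hdm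
    obtain ⟨u', hu'⟩ := J6H18.GD.exists_u hdm'
    refine ⟨C * C', min ε0 ε0', TH976.Cmp.one_le_mul' hC hC', lt_min hε0 hε0', ?_⟩
    intro φ hφ ε k x y z hε hε1 hk hx hy
    have t1 := h u hu ε k x z hε (hε1.trans (min_le_left _ _)) hk hx
    have t2 := h' u' hu' ε k y (fun i => φ (z i)) hε (hε1.trans (min_le_right _ _)) hk hy
    have e : F u z k = (∏ i ∈ range k, ‖deriv φ (z i)‖ ^ (5 / 48 : ℝ)) *
        F u' (fun i => φ (z i)) k :=
      J6H18.GD.kFun_conf hdm.open_D hdm'.open_D hu hu' hφ hk hx.2.2.1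
    have hP : 0 < ∏ i ∈ range k, ‖deriv φ (z i)‖ ^ (5 / 48 : ℝ) := by
      apply Finset.prod_pos
      intro i hi
      have h3 : deriv φ (z i) ≠ 0 := TH976.Conf.deriv_ne hdm.open_D hdm'.open_D hφ
        (hx.2.2.1 i (mem_range.mp hi))
      have := norm_pos_iff.mpr h3
      positivity
    have t3 := (TH976.Cmp.refl hP).mul t2.symm
    rw [e] at t1
    have t4 := t1.trans (t3.congr (by ring) rfl)
    exact cmp_iff (t4.weaken (le_of_eq (by rw [mul_pow]; ring)))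

end Pool.Agent.Results.MP_35f495_pr.DomainConnectionFunctions
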