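import Pool.Agent.J6H72.LP.Refl
import Pool.Agent.J6H72.LP.Sch
import Pool.Agent.H160R2.SA.Arm

/-!
Critical bond percolation on the square lattice (`p = 1/2`) in the quadrant `x ≥ 0, y ≥ 0`:
**Schramm's left-passage formula up to constants**. Let `I` be a boundary arc and `z` a face of the
quadrant. The probability that the open clusters of `I` separate `z` from the rest of the boundary
(that is, that the exploration path between the two ends of `I` has `z` and `I` on the same side)
is given by Schramm's formula for `κ = 6`, up to multiplicative constants which depend neither on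
the arc nor on the face; the same holds for the probability of the complement. The arc may be
finite or infinite on one or both sides, as small as one vertex, and may contain the corner; the
face may be anywhere in the quadrant, as close to the arc, to its end points or to the corner as
one likes. The conformal invariant, the harmonic measure of `I` seen from the centre of `z`, is
computed with the conformal map `w ↦ w²` of the quadrant onto the upper half-plane.
-/

set_option autoImplicit false

namespace Pool.Agent.Results.MP_35f495_pr.LeftPassage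

open MeasureTheory

/-- The square lattice: two points of `ℤ²` are adjacent when they differ by one in exactly one
coordinate. -/
def Z2 : SimpleGraph (ℤ × ℤ) where
  Adj u v := |u.1 - v.1| + |u.2 - v.2| = 1
  symm := ⟨fun u v h => by rw [abs_sub_comm v.1, abs_sub_comm v.2]; exact h⟩
  loopless := ⟨fun u h => by simp at h⟩

/-- Critical bond percolation: every edge of the square lattice is open (`true`) with
probability `1/2`, independently of the other edges. -/
noncomputable def crit : Measure (Z2.edgeSet → Bool) :=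
  Measure.infinitePi (fun _ => ProbabilityTheory.bernoulliMeasure true false
    ⟨1/2, by norm_num, by norm_num⟩)

/-- The closed quadrant. -/
def Quad : Set (ℤ × ℤ) := {v | 0 ≤ v.1 ∧ 0 ≤ v.2}

/-- The graph of the open edges with both endpoints in the closed quadrant. -/
def openGraph (ω : Z2.edgeSet → Bool) : SimpleGraph (ℤ × ℤ) :=
  SimpleGraph.fromEdgeSet
    {e | (∃ h : e ∈ Z2.edgeSet, ω ⟨e, h⟩ = true) ∧ ∀ v ∈ e, v ∈ Quad}

/-- The boundary vertex of the quadrant with coordinate `t`: `(t, 0)` for `t ≥ 0`, and `(0, -t)` for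
`t ≤ 0`. A set of integers stands for a set of boundary vertices, an interval for an arc. -/
def bd (t : ℤ) : ℤ × ℤ := (max t 0, max (-t) 0)

/-- The union of the open clusters (in the quadrant) of the boundary vertices in `I`. -/
def clusters (ω : Z2.edgeSet → Bool) (I : Set ℤ) : Set (ℤ × ℤ) :=
  {v | ∃ t ∈ I, (openGraph ω).Reachable (bd t) v}

/-- The pair `(x, y)` also stands for the face (unit square) with lower left corner `(x, y)`. This
is the graph of the faces: `f` and `g` are adjacent when they have a common edge, at least one of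
them is in the quadrant, and their common edge, which joins `(max f.1 g.1, max f.2 g.2)` and
`(min f.1 g.1 + 1, min f.2 g.2 + 1)`, is not an open edge of the clusters of `I`. -/
def faceGraph (ω : Z2.edgeSet → Bool) (I : Set ℤ) : SimpleGraph (ℤ × ℤ) where
  Adj f g := Z2.Adj f g ∧ (f ∈ Quad ∨ g ∈ Quad) ∧
    ¬ ((openGraph ω).Adj (max f.1 g.1, max f.2 g.2) (min f.1 g.1 + 1, min f.2 g.2 + 1) ∧
      (max f.1 g.1, max f.2 g.2) ∈ clusters ω I)
  symm := ⟨fun f g h => by
    rw [max_comm g.1, max_comm g.2, min_comm g.1, min_comm g.2]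
    exact ⟨h.1.symm, h.2.1.symm, h.2.2⟩⟩
  loopless := ⟨fun _ h => Z2.irrefl h.1⟩

/-- The face outside of the quadrant next to the boundary edge which joins `bd t` and
`bd (t + 1)`. -/
def outer (t : ℤ) : ℤ × ℤ := if 0 ≤ t then (t, -1) else (-1, -t - 1)

/-- The clusters of `I` separate the face `z` from the part of the boundary which is not in `I`:
every path of faces from `z` which leaves the quadrant through a boundary edge with an end point
outside `I` crosses an open edge of the clusters of `I`. -/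
def Separated (ω : Z2.edgeSet → Bool) (I : Set ℤ) (z : ℤ × ℤ) : Prop :=
  ∀ t : ℤ, ¬ (t ∈ I ∧ t + 1 ∈ I) → ¬ (faceGraph ω I).Reachable z (outer t)

/-- The image, under the conformal map `w ↦ w²` of the quadrant onto the upper half-plane, of the
boundary point with real coordinate `t` (it is real, and equal to `t |t|`). -/
noncomputable def sq (t : ℝ) : ℝ := ((⟨max t 0, max (-t) 0⟩ : ℂ) ^ 2).re

/-- The image, under the same map, of the centre of the face `z`. -/
noncomputable def centre (z : ℤ × ℤ) : ℂ := (⟨z.1 + 1 / 2, z.2 + 1 / 2⟩ : ℂ) ^ 2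

/-- The harmonic measure, in the quadrant and seen from the centre of the face `z`, of the set of
the boundary points at distance at most `1/2` (along the boundary) from the vertices in `I`:
the integral of the Poisson kernel of the half-plane over the image of this set. -/
noncomputable def harm (I : Set ℤ) (z : ℤ × ℤ) : ℝ :=
  (∫ s in sq '' {r : ℝ | ∃ t ∈ I, |r - t| ≤ 1 / 2},
    (centre z).im / ((s - (centre z).re) ^ 2 + (centre z).im ^ 2)) / Real.pi

/-- Schramm's formula for `κ = 6` as a function of the harmonic measure `θ`: the probability that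
chordal SLE₆ leaves on its left side a point from which the left part of the boundary has harmonic
measure `θ` is `schramm θ`. -/
noncomputable def schramm (θ : ℝ) : ℝ :=
  (∫ u in (0 : ℝ)..(Real.pi * θ), (Real.sin u) ^ (-(2/3) : ℝ)) /
    ∫ u in (0 : ℝ)..Real.pi, (Real.sin u) ^ (-(2/3) : ℝ)

/-- The two bounds for the probability `p` and the two bounds for `1 - p`. -/
def Comparable (c C p F : ℝ) : Prop :=
  c * F ≤ p ∧ p ≤ C * F ∧ c * (1 - F) ≤ 1 - p ∧ 1 - p ≤ C * (1 - F)

theorem sq_eq (t : ℝ) : sq t = TH976.QC.sq t := by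
  unfold sq TH976.QC.sq
  rw [pow_two, Complex.mul_re]
  rcases le_total 0 t with h | h
  · rw [abs_of_nonneg h, max_eq_left h, max_eq_right (by linarith)]
    ring
  · rw [abs_of_nonpos h, max_eq_right h, max_eq_left (by linarith)]
    ring

open Pool.Agent.J6H72.LP

theorem adj_iff (ω : Z2.edgeSet → Bool) (u v : ℤ × ℤ) :
    (openGraph ω).Adj u v ↔ H974.Adj (OQ ω) u v := by
  have h1 : (openGraph ω).Adj u v ↔ (H974.openGraph ω).Adj u v ∧ u ∈ Quad ∧ v ∈ Quad := by
    unfold openGraph H974.openGraph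
    rw [SimpleGraph.fromEdgeSet_adj, SimpleGraph.fromEdgeSet_adj]
    constructor
    · rintro ⟨⟨h, hV⟩, hne⟩
      exact ⟨⟨h, hne⟩, hV u (Sym2.mem_mk_left u v), hV v (Sym2.mem_mk_right u v)⟩
    · rintro ⟨⟨h, hne⟩, hu, hv⟩
      refine ⟨⟨h, ?_⟩, hne⟩
      intro w hw
      rcases Sym2.mem_iff.mp hw with rfl | rfl
      · exact hu
      · exact hv
  have h0 := H974.openGraph_adj ω u v
  refine h1.trans ⟨?_, ?_⟩
  · rintro ⟨ha, hu, hv⟩
    obtain ⟨e, he, hc⟩ := h0.mp ha
    refine ⟨e, ⟨he, ?_⟩, hc⟩
    rcases hc with ⟨h2, -⟩ | ⟨h2, -⟩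
    · rw [← h2] at hu
      exact hu
    · rw [← h2] at hv
      exact hv
  · rintro ⟨e, ⟨he, hq⟩, hc⟩
    have hs : H974.src e ∈ Quad := hq
    have ht : H974.tgt e ∈ Quad := by
      obtain ⟨a, b, c⟩ := e
      have hq' : 0 ≤ a ∧ 0 ≤ b := hq
      cases c
      · exact ⟨hq'.1, by show (0 : ℤ) ≤ b + 1; omega⟩
      · exact ⟨by show (0 : ℤ) ≤ a + 1; omega, hq'.2⟩
    refine ⟨h0.mpr ⟨e, he, hc⟩, ?_⟩
    rcases hc with ⟨h2, h3⟩ | ⟨h2, h3⟩
    · rw [← h2, ← h3]
      exact ⟨hs, ht⟩
    · rw [← h2, ← h3]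
      exact ⟨ht, hs⟩

theorem reach_iff (ω : Z2.edgeSet → Bool) (u v : ℤ × ℤ) :
    (openGraph ω).Reachable u v ↔ H974.Reach (OQ ω) u v := by
  rw [SimpleGraph.reachable_iff_reflTransGen]
  have : (openGraph ω).Adj = H974.Adj (OQ ω) := by
    funext u v
    exact propext (adj_iff ω u v)
  rw [this]
  rfl

theorem block_iff (ω : Z2.edgeSet → Bool) (I : Set ℤ) {e : H974.Edg} :
    e ∈ WI (OQ ω) I ↔
      (openGraph ω).Adj (H974.src e) (H974.tgt e) ∧ H974.src e ∈ clusters ω I := by
  constructor
  · rintro ⟨h1, t, ht, h2⟩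
    exact ⟨(adj_iff ω _ _).mpr ⟨e, h1, Or.inl ⟨rfl, rfl⟩⟩, t, ht, (reach_iff ω _ _).mpr h2⟩
  · rintro ⟨h1, t, ht, h2⟩
    refine ⟨?_, t, ht, (reach_iff ω _ _).mp h2⟩
    unfold openGraph at h1
    rw [SimpleGraph.fromEdgeSet_adj] at h1
    obtain ⟨⟨⟨h3, h4⟩, h5⟩, -⟩ := h1
    exact ⟨h4, h5 _ (Sym2.mem_mk_left _ _)⟩

theorem face_iff (ω : Z2.edgeSet → Bool) (I : Set ℤ) (f g : ℤ × ℤ) :
    (faceGraph ω I).Adj f g ↔ H974.DAdj ((WI (OQ ω) I)ᶜ ∩ QE) f g := by
  have key : ∀ e : H974.Edg, e ∈ QE → e ∉ WI (OQ ω) I →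
      (faceGraph ω I).Adj (H974.dsrc e) (H974.dtgt e) := by
    intro e hq he
    rw [block_iff] at he
    obtain ⟨a, b, c⟩ := e
    have hq' : 0 ≤ a ∧ 0 ≤ b := hq
    refine ⟨?_, Or.inr hq', ?_⟩
    · cases c
      · show |a - 1 - a| + |b - b| = 1
        rw [show a - 1 - a = -1 by ring, sub_self]
        rfl
      · show |a - a| + |b - 1 - b| = 1
        rw [show b - 1 - b = -1 by ring, sub_self]
        rfl
    · cases c
      · have e1 : (max (H974.dsrc (a, b, false)).1 (H974.dtgt (a, b, false)).1,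
            max (H974.dsrc (a, b, false)).2 (H974.dtgt (a, b, false)).2) = H974.src (a, b, false) := by
          show (max (a - 1) a, max b b) = (a, b)
          rw [max_eq_right (by omega), max_self]
        have e2 : (min (H974.dsrc (a, b, false)).1 (H974.dtgt (a, b, false)).1 + 1,
            min (H974.dsrc (a, b, false)).2 (H974.dtgt (a, b, false)).2 + 1) =
              H974.tgt (a, b, false) := by
          show (min (a - 1) a + 1, min b b + 1) = (a, b + 1)
          rw [min_eq_left (by omega), min_self, sub_add_cancel]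
        rw [e1, e2]
        exact he
      · have e1 : (max (H974.dsrc (a, b, true)).1 (H974.dtgt (a, b, true)).1,
            max (H974.dsrc (a, b, true)).2 (H974.dtgt (a, b, true)).2) = H974.src (a, b, true) := by
          show (max a a, max (b - 1) b) = (a, b)
          rw [max_eq_right (by omega : b - 1 ≤ b), max_self]
        have e2 : (min (H974.dsrc (a, b, true)).1 (H974.dtgt (a, b, true)).1 + 1,
            min (H974.dsrc (a, b, true)).2 (H974.dtgt (a, b, true)).2 + 1) =
              H974.tgt (a, b, true) := by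
          show (min a a + 1, min (b - 1) b + 1) = (a + 1, b)
          rw [min_eq_left (by omega : b - 1 ≤ b), min_self, sub_add_cancel]
        rw [e1, e2]
        exact he
  constructor
  · intro h
    have hZ : |f.1 - g.1| + |f.2 - g.2| = 1 := h.1
    -- the edge between the two faces
    obtain ⟨e, hc⟩ : ∃ e : H974.Edg, (H974.dsrc e = f ∧ H974.dtgt e = g) ∨
        (H974.dsrc e = g ∧ H974.dtgt e = f) := by
      obtain ⟨x, y⟩ := f
      obtain ⟨x', y'⟩ := g
      simp only at hZ
      have h5 : (x' = x + 1 ∧ y' = y) ∨ (x = x' + 1 ∧ y' = y) ∨ (x' = x ∧ y' = y + 1) ∨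
          (x' = x ∧ y = y' + 1) := by
        rcases abs_cases (x - x') with ⟨h1, h2⟩ | ⟨h1, h2⟩ <;>
          rcases abs_cases (y - y') with ⟨h3, h4⟩ | ⟨h3, h4⟩ <;> omega
      rcases h5 with ⟨h1, h2⟩ | ⟨h1, h2⟩ | ⟨h1, h2⟩ | ⟨h1, h2⟩
      · exact ⟨(x', y', false), Or.inl ⟨by rw [H974.dsrc_false, h1, h2, add_sub_cancel_right], rfl⟩⟩
      · exact ⟨(x, y, false), Or.inr ⟨by rw [H974.dsrc_false, h1, h2, add_sub_cancel_right], rfl⟩⟩
      · exact ⟨(x', y', true), Or.inl ⟨by rw [H974.dsrc_true, h1, h2, add_sub_cancel_right], rfl⟩⟩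
      · exact ⟨(x, y, true), Or.inr ⟨by rw [H974.dsrc_true, h1, h2, add_sub_cancel_right], rfl⟩⟩
    have hsym : (faceGraph ω I).Adj (H974.dsrc e) (H974.dtgt e) := by
      rcases hc with ⟨h1, h2⟩ | ⟨h1, h2⟩
      · rw [h1, h2]; exact h
      · rw [h1, h2]; exact h.symm
    refine ⟨e, ⟨?_, ?_⟩, hc⟩
    · rw [Set.mem_compl_iff, block_iff]
      obtain ⟨-, -, h3⟩ := hsym
      obtain ⟨a, b, c⟩ := e
      cases c
      · have e1 : (max (H974.dsrc (a, b, false)).1 (H974.dtgt (a, b, false)).1,
            max (H974.dsrc (a, b, false)).2 (H974.dtgt (a, b, false)).2) = H974.src (a, b, false) := by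
          show (max (a - 1) a, max b b) = (a, b)
          rw [max_eq_right (by omega), max_self]
        have e2 : (min (H974.dsrc (a, b, false)).1 (H974.dtgt (a, b, false)).1 + 1,
            min (H974.dsrc (a, b, false)).2 (H974.dtgt (a, b, false)).2 + 1) =
              H974.tgt (a, b, false) := by
          show (min (a - 1) a + 1, min b b + 1) = (a, b + 1)
          rw [min_eq_left (by omega), min_self, sub_add_cancel]
        rw [e1, e2] at h3
        exact h3
      · have e1 : (max (H974.dsrc (a, b, true)).1 (H974.dtgt (a, b, true)).1,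
            max (H974.dsrc (a, b, true)).2 (H974.dtgt (a, b, true)).2) = H974.src (a, b, true) := by
          show (max a a, max (b - 1) b) = (a, b)
          rw [max_eq_right (by omega : b - 1 ≤ b), max_self]
        have e2 : (min (H974.dsrc (a, b, true)).1 (H974.dtgt (a, b, true)).1 + 1,
            min (H974.dsrc (a, b, true)).2 (H974.dtgt (a, b, true)).2 + 1) =
              H974.tgt (a, b, true) := by
          show (min a a + 1, min (b - 1) b + 1) = (a + 1, b)
          rw [min_eq_left (by omega : b - 1 ≤ b), min_self, sub_add_cancel]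
        rw [e1, e2] at h3
        exact h3
    · obtain ⟨-, h3, -⟩ := hsym
      obtain ⟨a, b, c⟩ := e
      show 0 ≤ a ∧ 0 ≤ b
      rcases h3 with h3 | h3
      · cases c
        · have : 0 ≤ a - 1 ∧ 0 ≤ b := h3
          exact ⟨by omega, this.2⟩
        · have : 0 ≤ a ∧ 0 ≤ b - 1 := h3
          exact ⟨this.1, by omega⟩
      · exact h3
  · rintro ⟨e, ⟨he, hq⟩, ⟨h1, h2⟩ | ⟨h1, h2⟩⟩
    · rw [← h1, ← h2]
      exact key e hq he
    · rw [← h1, ← h2]
      exact (key e hq he).symm

theorem outer_eq (t : ℤ) : outer t = TH976.QC.ofc t := rfl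

theorem sep_iff (ω : Z2.edgeSet → Bool) (I : Set ℤ) (z : ℤ × ℤ) :
    Separated ω I z ↔ Enc (OQ ω) I z := by
  have h1 : (faceGraph ω I).Adj = H974.DAdj ((WI (OQ ω) I)ᶜ ∩ QE) := by
    funext f g
    exact propext (face_iff ω I f g)
  unfold Separated Enc
  simp only [SimpleGraph.reachable_iff_reflTransGen, h1, outer_eq]
  rfl

theorem prob_eq (I : Set ℤ) (x y : ℤ) :
    crit.real {ω | Separated ω I (x, y)} = pE I (x, y) := by
  have h : pE I (x, y) = crit.real {ω | Enc (OQ ω) I (x, y)} := rfl
  rw [h]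
  congr 1
  ext ω
  exact sep_iff ω I (x, y)

theorem image_eq (I : Set ℤ) : sq '' {r : ℝ | ∃ t ∈ I, |r - t| ≤ 1 / 2} = RI I := by
  have hs : sq = TH976.QC.sq := funext sq_eq
  rw [hs]
  ext s
  constructor
  · rintro ⟨r, ⟨t, ht, h1⟩, rfl⟩
    rw [abs_le] at h1
    exact ⟨t, ht, sqm (by linarith), sqm (by linarith)⟩
  · rintro ⟨t, ht, h1, h2⟩
    obtain ⟨w, hw⟩ : ∃ w : ℝ, TH976.QC.sq w = s := by
      rcases le_total 0 s with h | h
      · refine ⟨Real.sqrt s, ?_⟩
        unfold TH976.QC.sq
        rw [abs_of_nonneg (Real.sqrt_nonneg s)]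
        exact Real.mul_self_sqrt h
      · refine ⟨-Real.sqrt (-s), ?_⟩
        rw [TH976.QC.sq_neg]
        unfold TH976.QC.sq
        rw [abs_of_nonneg (Real.sqrt_nonneg _), Real.mul_self_sqrt (by linarith)]
        ring
    refine ⟨w, ⟨t, ht, ?_⟩, hw⟩
    rw [← hw] at h1 h2
    have h3 := TH976.QC.sq_strictMono.le_iff_le.mp h1
    have h4 := TH976.QC.sq_strictMono.le_iff_le.mp h2
    rw [abs_le]
    constructor <;> linarith

theorem harm_eq (I : Set ℤ) (x y : ℤ) : harm I (x, y) = hmr (uz x y) (vz x y) (RI I) := by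
  have e1 : (centre (x, y)).re = uz x y := by
    unfold centre uz
    rw [pow_two, Complex.mul_re]
    ring
  have e2 : (centre (x, y)).im = vz x y := by
    unfold centre vz
    rw [pow_two, Complex.mul_im]
    ring
  unfold harm hmr ker
  rw [image_eq, e1, e2]

/-- **Schramm's formula up to constants in the quadrant**, for all arcs `I` (intervals and
complements of intervals of boundary vertices) and all faces `z` of the quadrant. -/
theorem result : ∃ c C : ℝ, 0 < c ∧ 0 < C ∧
    ∀ (I : Set ℤ) (z : ℤ × ℤ), I.Nonempty → Iᶜ.Nonempty → (I.OrdConnected ∨ Iᶜ.OrdConnected) →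
      z ∈ Quad →
      Comparable c C (crit.real {ω | Separated ω I z}) (schramm (harm I z)) := by
  obtain ⟨c1, C1, hc1, hC1, h1⟩ := all_bounds Pool.Agent.H160R2.SA.arSharp
  obtain ⟨k, K, hk, hK, h2⟩ := sch_bd
  refine ⟨c1 / K, C1 / k, by positivity, by positivity, ?_⟩
  rintro I ⟨x, y⟩ hn hn' hoc ⟨hx, hy⟩
  have hx' : 0 ≤ x := hx
  have hy' : 0 ≤ y := hy
  obtain ⟨⟨a1, a2⟩, a3, a4⟩ := h1 I x y hx' hy' hn hn' hoc
  have v0 : 0 < vz x y := by
    unfold vz
    have : (0 : ℝ) ≤ x := by exact_mod_cast hx'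
    have : (0 : ℝ) ≤ y := by exact_mod_cast hy'
    positivity
  obtain ⟨w0, w1⟩ := hmr_nonneg' v0 I
  obtain ⟨⟨b1, b2⟩, b3, b4⟩ := h2 _ w0 w1
  rw [prob_eq, harm_eq]
  have hS : schramm (hmr (uz x y) (vz x y) (RI I)) = Sch (hmr (uz x y) (vz x y) (RI I)) := rfl
  rw [hS]
  generalize hmr (uz x y) (vz x y) (RI I) = θ at *
  generalize Sch θ = S at *
  generalize pE I (x, y) = p at *
  generalize θ ^ ((1 : ℝ) / 3) = A at *
  generalize (1 - θ) ^ ((1 : ℝ) / 3) = B at *
  refine ⟨?_, ?_, ?_, ?_⟩
  · refine le_trans ?_ a1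
    rw [div_mul_eq_mul_div, div_le_iff₀ hK]
    nlinarith
  · refine a2.trans ?_
    rw [div_mul_eq_mul_div, le_div_iff₀ hk]
    nlinarith
  · refine le_trans ?_ a3
    rw [div_mul_eq_mul_div, div_le_iff₀ hK]
    nlinarith
  · refine a4.trans ?_
    rw [div_mul_eq_mul_div, le_div_iff₀ hk]
    nlinarith

end Pool.Agent.Results.MP_35f495_pr.LeftPassage
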