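import Mathlib
import Pool.Agent.J6H18.SL.Fin
import Pool.Agent.J6H18.SL.HM
import Pool.Agent.J6H18.SL.PU
import Pool.Agent.J6H18.SL.DU
import Pool.Agent.J6H18.SL.DAP
import Pool.Agent.J6H18.SL.JNL
import Pool.Agent.J6H18.SL.WR
import Pool.Agent.J6H18.SL.GDS
import Pool.Agent.J6H18.SL.HalfW
import Pool.Agent.J6H95.SL.PL
import Pool.Agent.J6H22.SL.DL
import Pool.Agent.Y989.SD.Fin
import Pool.Agent.H160R2.SA.Arm

/-!
Critical bond percolation on `ε ℤ²` (`p = 1/2`) in a Jordan domain with `C^(1,α)` boundary: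
**Schramm's left-passage formula up to constants**. Let `I` be a boundary arc and `u` a point of the
domain. The probability that the open clusters of `I` separate the face of the lattice which contains
`u` from the rest of the boundary (that is, that the exploration path between the two ends of `I` has
`u` and `I` on the same side) is given by Schramm's formula for `κ = 6`, up to multiplicative
constants which depend neither on the arc nor on the point nor on the mesh; the same holds for the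
probability of the complement. The arc and its complement may be as small as a constant times the
mesh, and the point may be as close to the boundary, to the arc or to its end points as a constant
times the mesh. Hence these probabilities are conformally invariant up to constants.
-/

set_option autoImplicit false

namespace Pool.Agent.Results.MP_35f495_pr.SmoothLeftPassage

open MeasureTheory

/-- The square lattice: two points of `ℤ²` are adjacent when they differ by one in exactly one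
coordinate. -/
def Z2 : SimpleGraph (ℤ × ℤ) where
  Adj u v := |u.1 - v.1| + |u.2 - v.2| = 1
  symm := ⟨fun u v h => by rw [abs_sub_comm v.1, abs_sub_comm v.2]; exact h⟩
  loopless := ⟨fun u h => by simp at h⟩

/-- Critical bond percolation: every edge of the square lattice is open (`true`) with
probability `1/2`, independently of the other edges. -/
noncomputable def crit : Measure (Z2.edgeSet → Bool) :=
  Measure.infinitePi (fun _ => ProbabilityTheory.bernoulliMeasure true false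
    ⟨1/2, by norm_num, by norm_num⟩)

/-- The position of the vertex `v` of the lattice `ε ℤ²` in the plane. -/
noncomputable def pos (ε : ℝ) (v : ℤ × ℤ) : ℂ := ⟨ε * v.1, ε * v.2⟩

/-- The graph of the open edges of `ε ℤ²` with both endpoints in `D`. -/
def openGraph (ε : ℝ) (D : Set ℂ) (ω : Z2.edgeSet → Bool) : SimpleGraph (ℤ × ℤ) :=
  SimpleGraph.fromEdgeSet {e | (∃ h : e ∈ Z2.edgeSet, ω ⟨e, h⟩ = true) ∧ ∀ v ∈ e, pos ε v ∈ D}

/-- The open clusters of the boundary set `A`: the vertices which are connected inside `D` to a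
vertex of `D` at distance at most `2 ε` from `A`. -/
def clusters (ε : ℝ) (D : Set ℂ) (ω : Z2.edgeSet → Bool) (A : Set ℂ) : Set (ℤ × ℤ) :=
  {v | ∃ u, pos ε u ∈ D ∧ (∃ a ∈ A, ‖pos ε u - a‖ ≤ 2 * ε) ∧ (openGraph ε D ω).Reachable u v}

/-- The closed square (face) of `ε ℤ²` whose lower left corner is `pos ε g`. -/
def square (ε : ℝ) (g : ℤ × ℤ) : Set ℂ :=
  {p | (ε * g.1 ≤ p.re ∧ p.re ≤ ε * (g.1 + 1)) ∧ (ε * g.2 ≤ p.im ∧ p.im ≤ ε * (g.2 + 1))}

/-- The common edge of the two adjacent faces `f` and `g` joins `endA f g` and `endB f g`. -/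
def endA (f g : ℤ × ℤ) : ℤ × ℤ := (max f.1 g.1, max f.2 g.2)

/-- The other end point of the common edge. -/
def endB (f g : ℤ × ℤ) : ℤ × ℤ := (min f.1 g.1 + 1, min f.2 g.2 + 1)

/-- The graph of the faces: two faces are adjacent when they have a common edge, this edge has both
end points in `D`, and it is not an open edge of the clusters of `A`. -/
def faceGraph (ε : ℝ) (D : Set ℂ) (ω : Z2.edgeSet → Bool) (A : Set ℂ) : SimpleGraph (ℤ × ℤ) where
  Adj f g := Z2.Adj f g ∧ (pos ε (endA f g) ∈ D ∧ pos ε (endB f g) ∈ D) ∧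
    ¬ ((openGraph ε D ω).Adj (endA f g) (endB f g) ∧ endA f g ∈ clusters ε D ω A)
  symm := ⟨fun f g h => by
    have e1 : endA g f = endA f g := by unfold endA; rw [max_comm g.1, max_comm g.2]
    have e2 : endB g f = endB f g := by unfold endB; rw [min_comm g.1, min_comm g.2]
    rw [e1, e2]
    exact ⟨h.1.symm, h.2.1, h.2.2⟩⟩
  loopless := ⟨fun _ h => Z2.irrefl h.1⟩

/-- The clusters of `A` separate the face `z` from `B`: no path of faces which starts at `z` and does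
not cross an open edge of the clusters of `A` reaches a face which meets `B`. -/
def Separated (ε : ℝ) (D : Set ℂ) (A B : Set ℂ) (z : ℤ × ℤ) (ω : Z2.edgeSet → Bool) : Prop :=
  ∀ g, (faceGraph ε D ω A).Reachable z g → Disjoint (square ε g) B

/-- The closed unit disc. -/
def disc : Set ℂ := Metric.closedBall 0 1

/-- `f` parametrizes a Jordan domain with `C^(1,α)` boundary, `0 < α ≤ 1`: it is injective and
continuous on the closed unit disc, conformal in the open unit disc, and its derivative extends to a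
Hölder continuous function `g` without zeros on the closed unit disc. (By the theorem of Kellogg and
Warschawski the Riemann maps onto Jordan domains with `C^(1,α)` boundary, `0 < α < 1`, have this
property.) -/
def Smooth (f : ℂ → ℂ) : Prop :=
  Set.InjOn f disc ∧ ContinuousOn f disc ∧ ∃ (g : ℂ → ℂ) (M α : ℝ), 0 < α ∧ α ≤ 1 ∧
    (∀ z, ‖z‖ < 1 → HasDerivAt f (g z) z) ∧ (∀ z ∈ disc, g z ≠ 0) ∧
    ∀ z ∈ disc, ∀ w ∈ disc, ‖g z - g w‖ ≤ M * ‖z - w‖ ^ α

/-- The point of the unit circle of argument `θ`. -/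
noncomputable def cir (θ : ℝ) : ℂ := Complex.exp (θ * Complex.I)

/-- The closed arc of the unit circle between the arguments `θ₁` and `θ₂`. -/
def arc (θ₁ θ₂ : ℝ) : Set ℂ := cir '' Set.Icc θ₁ θ₂

/-- The harmonic measure of the arc, in the unit disc and seen from `w`: the integral of the Poisson
kernel. -/
noncomputable def harm (w : ℂ) (θ₁ θ₂ : ℝ) : ℝ :=
  (∫ t in θ₁..θ₂, (1 - ‖w‖ ^ 2) / ‖cir t - w‖ ^ 2) / (2 * Real.pi)

/-- Schramm's formula for `κ = 6` as a function of the harmonic measure `θ`: the probability that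
chordal SLE₆ leaves on its left side a point from which the left part of the boundary has harmonic
measure `θ` is `schramm θ`. -/
noncomputable def schramm (θ : ℝ) : ℝ :=
  (∫ u in (0 : ℝ)..(Real.pi * θ), (Real.sin u) ^ (-(2/3) : ℝ)) /
    ∫ u in (0 : ℝ)..Real.pi, (Real.sin u) ^ (-(2/3) : ℝ)

/-- In the domain `f '' disc`: the face `z` of `ε ℤ²` contains the point `f w`, whose preimage `w` is
at distance at least `K ε` from the unit circle, and the arc `[θ₁, θ₂]` and its complement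
have length at least `K ε`. -/
def Placed (f : ℂ → ℂ) (K ε θ₁ θ₂ : ℝ) (w : ℂ) (z : ℤ × ℤ) : Prop :=
  (0 < ε ∧ θ₁ < θ₂ ∧ θ₂ < θ₁ + 2 * Real.pi) ∧
    (K * ε ≤ θ₂ - θ₁ ∧ K * ε ≤ θ₁ + 2 * Real.pi - θ₂ ∧ K * ε ≤ 1 - ‖w‖) ∧ f w ∈ square ε z

/-- The probability that the clusters of the boundary arc `[θ₁, θ₂]` separate the face `z` from the
complementary boundary arc. -/
noncomputable def P (f : ℂ → ℂ) (ε θ₁ θ₂ : ℝ) (z : ℤ × ℤ) : ℝ :=
  crit.real {ω | Separated ε (f '' disc) (f '' arc θ₁ θ₂) (f '' arc θ₂ (θ₁ + 2 * Real.pi)) z ω}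

/-- The two bounds for the probability `p` and the two bounds for `1 - p`. -/
def Comparable (c C p F : ℝ) : Prop :=
  c * F ≤ p ∧ p ≤ C * F ∧ c * (1 - F) ≤ 1 - p ∧ 1 - p ≤ C * (1 - F)

section conversion
open Pool.Agent.J6H18.SL (WI)

theorem openGraph_adj {f : ℂ → ℂ} {ε : ℝ} {T : Finset (ℤ × ℤ)}
    (h : ∀ v, v ∈ T ↔ pos ε v ∈ f '' disc) (ω : Z2.edgeSet → Bool) (u v : ℤ × ℤ) :
    (openGraph ε (f '' disc) ω).Adj u v ↔
      H974.Adj (H974.FF (H973.ES T) ω : Set H974.Edg) u v := by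
  have e1 : (H974.FF (H973.ES T) ω : Set H974.Edg) = H974.opn ω ∩ TH976.dE (↑T : Set (ℤ × ℤ)) := by
    ext e
    rw [Finset.mem_coe, H974.mem_FF, H973.mem_ES]
    constructor
    · rintro ⟨⟨h2, h3⟩, h1⟩
      exact ⟨h1, h2, h3⟩
    · rintro ⟨h1, h2, h3⟩
      exact ⟨⟨h2, h3⟩, h1⟩
  have hs : ∀ w, pos ε w ∈ f '' disc ↔ w ∈ (↑T : Set (ℤ × ℤ)) := fun w => (h w).symm
  rw [e1]
  unfold openGraph
  rw [SimpleGraph.fromEdgeSet_adj]
  constructor
  · rintro ⟨⟨⟨h, hω⟩, hV⟩, hne⟩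
    have hadj : (H974.openGraph ω).Adj u v := by
      unfold H974.openGraph
      rw [SimpleGraph.fromEdgeSet_adj]
      exact ⟨⟨h, hω⟩, hne⟩
    obtain ⟨e, he, hcase⟩ := (H974.openGraph_adj ω u v).mp hadj
    have hu := (hs u).mp (hV u (Sym2.mem_mk_left u v))
    have hv := (hs v).mp (hV v (Sym2.mem_mk_right u v))
    refine ⟨e, ⟨he, ?_⟩, hcase⟩
    rcases hcase with ⟨h1, h2⟩ | ⟨h1, h2⟩
    · exact ⟨by rw [h1]; exact hu, by rw [h2]; exact hv⟩
    · exact ⟨by rw [h1]; exact hv, by rw [h2]; exact hu⟩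
  · rintro ⟨e, ⟨he, hV⟩, hcase⟩
    have hadj : (H974.openGraph ω).Adj u v := (H974.openGraph_adj ω u v).mpr ⟨e, he, hcase⟩
    unfold H974.openGraph at hadj
    rw [SimpleGraph.fromEdgeSet_adj] at hadj
    refine ⟨⟨hadj.1, ?_⟩, hadj.2⟩
    intro w hw
    rw [hs]
    rcases Sym2.mem_iff.mp hw with rfl | rfl
    · rcases hcase with ⟨h1, h2⟩ | ⟨h1, h2⟩
      · rw [← h1]; exact hV.1
      · rw [← h2]; exact hV.2
    · rcases hcase with ⟨h1, h2⟩ | ⟨h1, h2⟩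
      · rw [← h2]; exact hV.2
      · rw [← h1]; exact hV.1

theorem openGraph_reach {f : ℂ → ℂ} {ε : ℝ} {T : Finset (ℤ × ℤ)}
    (h : ∀ v, v ∈ T ↔ pos ε v ∈ f '' disc) (ω : Z2.edgeSet → Bool) (u v : ℤ × ℤ) :
    (openGraph ε (f '' disc) ω).Reachable u v ↔
      H974.Reach (H974.FF (H973.ES T) ω : Set H974.Edg) u v := by
  rw [SimpleGraph.reachable_iff_reflTransGen]
  have : (openGraph ε (f '' disc) ω).Adj = H974.Adj (H974.FF (H973.ES T) ω : Set H974.Edg) := by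
    funext u v
    exact propext (openGraph_adj h ω u v)
  rw [this]
  rfl

theorem clusters_iff {f : ℂ → ℂ} {ε θ₁ θ₂ : ℝ}
    (h : ∀ v, v ∈ Pool.Agent.Y989.SD.TD f ε ↔ pos ε v ∈ f '' disc) (ω : Z2.edgeSet → Bool)
    (v : ℤ × ℤ) : v ∈ clusters ε (f '' disc) ω (f '' arc θ₁ θ₂) ↔
      ∃ u ∈ Pool.Agent.Y989.SD.near f ε θ₁ θ₂,
        H974.Reach (H974.FF (H973.ES (Pool.Agent.Y989.SD.TD f ε)) ω : Set H974.Edg) u v := by
  constructor
  · rintro ⟨u, h1, ⟨_, ⟨_, ⟨θ, hθ, rfl⟩, rfl⟩, h3⟩, h4⟩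
    exact ⟨u, ⟨(h u).mpr h1, θ, hθ.1, hθ.2, h3⟩, (openGraph_reach h ω u v).mp h4⟩
  · rintro ⟨u, ⟨h1, θ, hθ1, hθ2, h3⟩, h4⟩
    exact ⟨u, (h u).mp h1, ⟨f (cir θ), ⟨cir θ, ⟨θ, ⟨hθ1, hθ2⟩, rfl⟩, rfl⟩, h3⟩,
      (openGraph_reach h ω u v).mpr h4⟩

theorem ends (e : H974.Edg) : endA (H974.dsrc e) (H974.dtgt e) = H974.src e ∧
    endB (H974.dsrc e) (H974.dtgt e) = H974.tgt e := by
  obtain ⟨a, b, _ | _⟩ := e
  · refine ⟨?_, ?_⟩
    · show (max (a - 1) a, max b b) = (a, b)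
      rw [max_eq_right (by omega), max_self]
    · show (min (a - 1) a + 1, min b b + 1) = (a, b + 1)
      rw [min_eq_left (by omega), min_self, sub_add_cancel]
  · refine ⟨?_, ?_⟩
    · show (max a a, max (b - 1) b) = (a, b)
      rw [max_eq_right (by omega : b - 1 ≤ b), max_self]
    · show (min a a + 1, min (b - 1) b + 1) = (a + 1, b)
      rw [min_eq_left (by omega : b - 1 ≤ b), min_self, sub_add_cancel]

theorem face_z2 (e : H974.Edg) : Z2.Adj (H974.dsrc e) (H974.dtgt e) := by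
  obtain ⟨a, b, _ | _⟩ := e
  · show |a - 1 - a| + |b - b| = 1
    rw [show a - 1 - a = -1 by ring, sub_self]
    rfl
  · show |a - a| + |b - 1 - b| = 1
    rw [show b - 1 - b = -1 by ring, sub_self]
    rfl

theorem z2_face {f g : ℤ × ℤ} (h : Z2.Adj f g) :
    ∃ e : H974.Edg, (H974.dsrc e = f ∧ H974.dtgt e = g) ∨ (H974.dsrc e = g ∧ H974.dtgt e = f) := by
  have hZ : |f.1 - g.1| + |f.2 - g.2| = 1 := h
  obtain ⟨x, y⟩ := f
  obtain ⟨x', y'⟩ := g
  simp only at hZ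
  have h5 : (x' = x + 1 ∧ y' = y) ∨ (x = x' + 1 ∧ y' = y) ∨ (x' = x ∧ y' = y + 1) ∨
      (x' = x ∧ y = y' + 1) := by
    rcases abs_cases (x - x') with ⟨h1, h2⟩ | ⟨h1, h2⟩ <;>
      rcases abs_cases (y - y') with ⟨h3, h4⟩ | ⟨h3, h4⟩ <;> omega
  rcases h5 with ⟨h1, h2⟩ | ⟨h1, h2⟩ | ⟨h1, h2⟩ | ⟨h1, h2⟩
  · exact ⟨(x', y', false), Or.inl ⟨by rw [H974.dsrc_false, h1, h2, add_sub_cancel_right], rfl⟩⟩
  · exact ⟨(x, y, false), Or.inr ⟨by rw [H974.dsrc_false, h1, h2, add_sub_cancel_right], rfl⟩⟩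
  · exact ⟨(x', y', true), Or.inl ⟨by rw [H974.dsrc_true, h1, h2, add_sub_cancel_right], rfl⟩⟩
  · exact ⟨(x, y, true), Or.inr ⟨by rw [H974.dsrc_true, h1, h2, add_sub_cancel_right], rfl⟩⟩

theorem face_iff {f : ℂ → ℂ} {ε θ₁ θ₂ : ℝ}
    (h : ∀ v, v ∈ Pool.Agent.Y989.SD.TD f ε ↔ pos ε v ∈ f '' disc) (ω : Z2.edgeSet → Bool)
    (a b : ℤ × ℤ) : (faceGraph ε (f '' disc) ω (f '' arc θ₁ θ₂)).Adj a b ↔
      H974.DAdj (↑(H973.ES (Pool.Agent.Y989.SD.TD f ε)) \
        WI ↑(H974.FF (H973.ES (Pool.Agent.Y989.SD.TD f ε)) ω)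
          (Pool.Agent.Y989.SD.near f ε θ₁ θ₂)) a b := by
  obtain ⟨T, hT⟩ : ∃ T, T = Pool.Agent.Y989.SD.TD f ε := ⟨_, rfl⟩
  have key : ∀ e : H974.Edg, (faceGraph ε (f '' disc) ω (f '' arc θ₁ θ₂)).Adj (H974.dsrc e)
      (H974.dtgt e) ↔ e ∈ (↑(H973.ES (Pool.Agent.Y989.SD.TD f ε)) \
        WI ↑(H974.FF (H973.ES (Pool.Agent.Y989.SD.TD f ε)) ω)
          (Pool.Agent.Y989.SD.near f ε θ₁ θ₂) : Set H974.Edg) := by
    intro e
    have hW : e ∈ WI ↑(H974.FF (H973.ES (Pool.Agent.Y989.SD.TD f ε)) ω)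
        (Pool.Agent.Y989.SD.near f ε θ₁ θ₂) ↔
        (openGraph ε (f '' disc) ω).Adj (H974.src e) (H974.tgt e) ∧
          H974.src e ∈ clusters ε (f '' disc) ω (f '' arc θ₁ θ₂) := by
      rw [clusters_iff h, openGraph_adj h]
      constructor
      · rintro ⟨h1, h2⟩
        exact ⟨⟨e, h1, Or.inl ⟨rfl, rfl⟩⟩, h2⟩
      · rintro ⟨⟨e', h1, h2⟩, h3⟩
        have : e' = e := by
          obtain ⟨p, q, _ | _⟩ := e <;> obtain ⟨p', q', _ | _⟩ := e'
          · simp only [H974.src_mk, H974.tgt_false, Prod.mk.injEq] at h2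
            have h4 : p' = p ∧ q' = q := by omega
            rw [h4.1, h4.2]
          · simp only [H974.src_mk, H974.tgt_false, H974.tgt_true, Prod.mk.injEq] at h2
            omega
          · simp only [H974.src_mk, H974.tgt_false, H974.tgt_true, Prod.mk.injEq] at h2
            omega
          · simp only [H974.src_mk, H974.tgt_true, Prod.mk.injEq] at h2
            have h4 : p' = p ∧ q' = q := by omega
            rw [h4.1, h4.2]
        rw [this] at h1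
        exact ⟨h1, h3⟩
    show (Z2.Adj _ _ ∧ _ ∧ _) ↔ _
    rw [(ends e).1, (ends e).2, Set.mem_diff, Finset.mem_coe, H973.mem_ES, h, h, hW]
    constructor
    · rintro ⟨-, h1, h2⟩
      exact ⟨h1, h2⟩
    · rintro ⟨h1, h2⟩
      exact ⟨face_z2 e, h1, h2⟩
  constructor
  · intro hab
    obtain ⟨e, hc⟩ := z2_face hab.1
    refine ⟨e, ?_, hc⟩
    rw [← key]
    rcases hc with ⟨h1, h2⟩ | ⟨h1, h2⟩
    · rw [h1, h2]; exact hab
    · rw [h1, h2]; exact hab.symm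
  · rintro ⟨e, he, ⟨h1, h2⟩ | ⟨h1, h2⟩⟩
    · rw [← h1, ← h2]
      exact (key e).mpr he
    · rw [← h1, ← h2]
      exact ((key e).mpr he).symm

theorem sep_iff {f : ℂ → ℂ} {ε θ₁ θ₂ : ℝ}
    (h : ∀ v, v ∈ Pool.Agent.Y989.SD.TD f ε ↔ pos ε v ∈ f '' disc) (ω : Z2.edgeSet → Bool)
    (z : ℤ × ℤ) :
    Separated ε (f '' disc) (f '' arc θ₁ θ₂) (f '' arc θ₂ (θ₁ + 2 * Real.pi)) z ω ↔
      Pool.Agent.J6H18.SL.Sep f ε θ₁ θ₂ z (H974.FF (H973.ES (Pool.Agent.Y989.SD.TD f ε)) ω) := by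
  have h1 : (faceGraph ε (f '' disc) ω (f '' arc θ₁ θ₂)).Adj =
      H974.DAdj (↑(H973.ES (Pool.Agent.Y989.SD.TD f ε)) \
        WI ↑(H974.FF (H973.ES (Pool.Agent.Y989.SD.TD f ε)) ω)
          (Pool.Agent.Y989.SD.near f ε θ₁ θ₂)) := by
    funext a b
    exact propext (face_iff h ω a b)
  have h2 : ∀ g, (faceGraph ε (f '' disc) ω (f '' arc θ₁ θ₂)).Reachable z g ↔
      H974.DReach (↑(H973.ES (Pool.Agent.Y989.SD.TD f ε)) \
        WI ↑(H974.FF (H973.ES (Pool.Agent.Y989.SD.TD f ε)) ω)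
          (Pool.Agent.Y989.SD.near f ε θ₁ θ₂)) z g := by
    intro g
    rw [SimpleGraph.reachable_iff_reflTransGen, h1]
    rfl
  unfold Separated Pool.Agent.J6H18.SL.Sep
  constructor
  · rintro hS g ⟨θ, hθ1, hθ2, hg⟩ hr
    have := hS g ((h2 g).mpr hr)
    exact Set.disjoint_left.mp this hg ⟨cir θ, ⟨θ, ⟨hθ1, hθ2⟩, rfl⟩, rfl⟩
  · intro hS g hr
    rw [Set.disjoint_left]
    rintro p hp ⟨_, ⟨θ, hθ, rfl⟩, rfl⟩
    exact hS g ⟨θ, hθ.1, hθ.2, hp⟩ ((h2 g).mp hr)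

theorem P_eq {f : ℂ → ℂ} {ε θ₁ θ₂ : ℝ}
    (h : ∀ v, v ∈ Pool.Agent.Y989.SD.TD f ε ↔ pos ε v ∈ f '' disc) (z : ℤ × ℤ) :
    P f ε θ₁ θ₂ z = H974.Pr Pool.Agent.Y989.SD.hf (H973.ES (Pool.Agent.Y989.SD.TD f ε))
      (Pool.Agent.J6H18.SL.Sep f ε θ₁ θ₂ z) := by
  have e2 : {ω : Z2.edgeSet → Bool |
      Separated ε (f '' disc) (f '' arc θ₁ θ₂) (f '' arc θ₂ (θ₁ + 2 * Real.pi)) z ω} =
      {ω | Pool.Agent.J6H18.SL.Sep f ε θ₁ θ₂ z
        (H974.FF (H973.ES (Pool.Agent.Y989.SD.TD f ε)) ω)} := by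
    ext ω
    exact sep_iff h ω z
  have h6 := H974.law_event H974.hlf (H973.ES (Pool.Agent.Y989.SD.TD f ε))
    (Pool.Agent.J6H18.SL.Sep f ε θ₁ θ₂ z)
  exact (congrArg (fun s => (H974.bondLaw H974.hlf).real s) e2).trans h6

end conversion

theorem one {f : ℂ → ℂ} (hf : Smooth f) : ∃ K c C ε₀ : ℝ, 0 < K ∧ 0 < c ∧ 0 < C ∧ 0 < ε₀ ∧
    ∀ (ε θ₁ θ₂ : ℝ) (w : ℂ) (z : ℤ × ℤ), ε ≤ ε₀ → Placed f K ε θ₁ θ₂ w z →
      Comparable c C (P f ε θ₁ θ₂ z) (schramm (harm w θ₁ θ₂)) := by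
  obtain ⟨hi, hc, g, M, α, ha0, ha1, hd, hn, hg⟩ := hf
  have hS := Pool.Agent.Y989.SD.smW_of ha0 ha1 hi hc hd hn hg
  obtain ⟨ρ, B, ε1, hρ, hε1, hG⟩ := Pool.Agent.Y989.SD.m_GD f g M α hS
  have hA := Pool.Agent.H160R2.SA.arSharp
  obtain ⟨K, c, C, ε0, hK, hc0, hC0, hε0, h⟩ := Pool.Agent.J6H18.SL.main
    Pool.Agent.J6H18.SL.t_HM (Pool.Agent.J6H95.SL.t_PL hA Pool.Agent.J6H18.SL.t_JNL)
    (Pool.Agent.J6H18.SL.t_PU Pool.Agent.J6H18.SL.t_FP1 Pool.Agent.J6H18.SL.t_FP2)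
    (Pool.Agent.J6H22.SL.t_DL (Pool.Agent.J6H18.SL.t_GDS hA Pool.Agent.J6H18.SL.t_WRS)
      Pool.Agent.J6H18.SL.t_JNL)
    (Pool.Agent.J6H18.SL.t_DU Pool.Agent.J6H18.SL.Half.t_HALF
      (Pool.Agent.J6H18.SL.t_DAP Pool.Agent.J6H18.SL.t_WRP) Pool.Agent.J6H18.SL.t_DA2) hS
  refine ⟨K, c, C, min ε0 ε1, hK, hc0, hC0, lt_min hε0 hε1, fun ε θ₁ θ₂ w z hε hP => ?_⟩
  obtain ⟨⟨a1, a2, a3⟩, ⟨a4, a5, a6⟩, a7⟩ := hP
  obtain ⟨⟨b1, b2⟩, b3, b4⟩ := h ε θ₁ θ₂ z w (hε.trans (min_le_left _ _)) ⟨a1, a2, a3, a4, a5, a6, a7⟩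
  have hT := (hG ε a1 (hε.trans (min_le_right _ _))).1
  rw [P_eq hT]
  exact ⟨b1, b2, b3, b4⟩

/-- **Schramm's formula and conformal invariance up to constants, in `C^(1,α)` Jordan domains.**
(1) For every such domain `f '' disc` there are constants such that, for all small meshes, all
boundary arcs and all points `f w`, the probability that the clusters of the arc separate the face
which contains `f w` from the complementary arc is comparable to Schramm's function of the harmonic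
measure of the arc seen from the point, and so are the probabilities of the complements.
(2) For two such domains the probabilities for corresponding arcs and points (under the conformal map
`f' ∘ f⁻¹` between the domains) are comparable, and so are the probabilities of the complements. -/
theorem result :
    (∀ f : ℂ → ℂ, Smooth f → ∃ K c C ε₀ : ℝ, 0 < K ∧ 0 < c ∧ 0 < C ∧ 0 < ε₀ ∧
      ∀ (ε θ₁ θ₂ : ℝ) (w : ℂ) (z : ℤ × ℤ), ε ≤ ε₀ → Placed f K ε θ₁ θ₂ w z →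
        Comparable c C (P f ε θ₁ θ₂ z) (schramm (harm w θ₁ θ₂))) ∧
    (∀ f f' : ℂ → ℂ, Smooth f → Smooth f' → ∃ K C ε₀ : ℝ, 0 < K ∧ 0 < C ∧ 0 < ε₀ ∧
      ∀ (ε ε' θ₁ θ₂ : ℝ) (w : ℂ) (z z' : ℤ × ℤ), ε ≤ ε₀ → ε' ≤ ε₀ →
        Placed f K ε θ₁ θ₂ w z → Placed f' K ε' θ₁ θ₂ w z' →
        P f' ε' θ₁ θ₂ z' ≤ C * P f ε θ₁ θ₂ z ∧ 1 - P f' ε' θ₁ θ₂ z' ≤ C * (1 - P f ε θ₁ θ₂ z)) := by
  refine ⟨fun f hf => one hf, ?_⟩
  intro f f' hf hf'
  obtain ⟨K1, c1, C1, e1, hK1, hc1, hC1, he1, h1⟩ := one hf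
  obtain ⟨K2, c2, C2, e2, hK2, hc2, hC2, he2, h2⟩ := one hf'
  refine ⟨max K1 K2, C2 / c1, min e1 e2, by positivity, by positivity, lt_min he1 he2, ?_⟩
  intro ε ε' θ₁ θ₂ w z z' hε hε' hP hP'
  have w1 : Placed f K1 ε θ₁ θ₂ w z := by
    obtain ⟨a, ⟨b1, b2, b3⟩, d⟩ := hP
    have : K1 * ε ≤ max K1 K2 * ε := mul_le_mul_of_nonneg_right (le_max_left _ _) a.1.le
    exact ⟨a, ⟨by linarith, by linarith, by linarith⟩, d⟩
  have w2 : Placed f' K2 ε' θ₁ θ₂ w z' := by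
    obtain ⟨a, ⟨b1, b2, b3⟩, d⟩ := hP'
    have : K2 * ε' ≤ max K1 K2 * ε' := mul_le_mul_of_nonneg_right (le_max_right _ _) a.1.le
    exact ⟨a, ⟨by linarith, by linarith, by linarith⟩, d⟩
  obtain ⟨p1, p2, p3, p4⟩ := h1 ε θ₁ θ₂ w z (hε.trans (min_le_left _ _)) w1
  obtain ⟨q1, q2, q3, q4⟩ := h2 ε' θ₁ θ₂ w z' (hε'.trans (min_le_right _ _)) w2
  have key : ∀ p q S : ℝ, c1 * S ≤ p → q ≤ C2 * S → q ≤ C2 / c1 * p := by
    intro p q S h3 h4
    refine h4.trans ?_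
    rw [div_mul_eq_mul_div, le_div_iff₀ hc1]
    have := mul_le_mul_of_nonneg_left h3 hC2.le
    linarith
  exact ⟨key _ _ _ p1 q2, key _ _ _ p3 q4⟩

end Pool.Agent.Results.MP_35f495_pr.SmoothLeftPassage
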